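import Mathlib
import Pool.Agent.TH118.SG.Deriv

/-!
# Regular monodromy: task statements (linear algebra)

`V` is a finite-dimensional vector space over a field of characteristic zero.
-/

set_option autoImplicit false

universe u v

namespace Pool.Agent.Y114.RM

open Module Polynomial Pool.Agent.TH118.SG

section defs

variable {K : Type u} [Field K] {V : Type v} [AddCommGroup V] [Module K V]

/-- closed under brackets -/
def IsLie (L : Submodule K (End K V)) : Prop := ∀ X ∈ L, ∀ Y ∈ L, X * Y - Y * X ∈ L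

/-- the elements of `L` which commute with `X` -/
def cen (L : Submodule K (End K V)) (X : End K V) : Submodule K (End K V) where
  carrier := {Y | Y ∈ L ∧ X * Y = Y * X}
  add_mem' := by
    rintro a b ⟨ha, ha'⟩ ⟨hb, hb'⟩
    exact ⟨L.add_mem ha hb, by rw [mul_add, add_mul, ha', hb']⟩
  zero_mem' := ⟨L.zero_mem, by rw [mul_zero, zero_mul]⟩
  smul_mem' := by
    rintro c a ⟨ha, ha'⟩
    exact ⟨L.smul_mem c ha, by rw [mul_smul_comm, smul_mul_assoc, ha']⟩

theorem mem_cen {L : Submodule K (End K V)} {X Y : End K V} :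
    Y ∈ cen L X ↔ Y ∈ L ∧ X * Y = Y * X := Iff.rfl

/-- the trace form of `V` is nondegenerate on `L` -/
def NonDeg (L : Submodule K (End K V)) : Prop :=
  ∀ X ∈ L, (∀ Y ∈ L, LinearMap.trace K V (X * Y) = 0) → X = 0

/-- the adjoint action -/
noncomputable def adE (X : End K V) : End K (End K V) :=
  LinearMap.mulLeft K X - LinearMap.mulRight K X

theorem adE_apply (X Y : End K V) : adE X Y = X * Y - Y * X := rfl

theorem IsLie.adE_mem {L : Submodule K (End K V)} (hL : IsLie L) {X : End K V} (hX : X ∈ L) :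
    ∀ Y ∈ L, adE X Y ∈ L := fun Y hY => hL X hX Y hY

/-- the conjugation `X ↦ g X g'` (`g'` is the inverse of `g`) -/
noncomputable def AdE (g g' : End K V) : End K (End K V) :=
  LinearMap.mulLeft K g * LinearMap.mulRight K g'

theorem AdE_apply (g g' X : End K V) : AdE g g' X = g * (X * g') := rfl

/-- the determinant on a stable subspace -/
noncomputable def detOn {E : Type v} [AddCommGroup E] [Module K E] (L : Submodule K E)
    (T : End K E) (h : ∀ X ∈ L, T X ∈ L) : K := LinearMap.det (M := L) (T.restrict h)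

end defs

/-- the `θ`-operator of `g`: multiplication by `θ β` on the generalized eigenspace for `β` -/
def IsOp {K : Type} [Field K] [CharZero K] [IsAlgClosed K] {V : Type} [AddCommGroup V] [Module K V]
    (θ : Additive Kˣ →+ K) (g Y : End K V) : Prop :=
  ∀ β, ∀ x ∈ g.maxGenEigenspace β, Y x = ext0 θ β • x

/-- GEN: a subspace stable under `f` and `h` that contains the kernel of `e` is everything. -/
def S_GEN : Prop := ∀ (K : Type u) [Field K] [CharZero K] (M : Type v) [AddCommGroup M]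
  [Module K M] [FiniteDimensional K M] (e f h : End K M), e * f - f * e = h →
  h * e - e * h = 2 • e → h * f - f * h = -(2 • f) → IsNilpotent e →
  ∀ W : Submodule K M, (∀ x ∈ W, f x ∈ W) → (∀ x ∈ W, h x ∈ W) → LinearMap.ker e ≤ W → W = ⊤

/-- NAT: the trace of `h` on a subspace stable under `e` and `h` is a natural number. -/
def S_NAT : Prop := ∀ (K : Type u) [Field K] [CharZero K] (M : Type v) [AddCommGroup M]
  [Module K M] [FiniteDimensional K M] (e f h : End K M), e * f - f * e = h →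
  h * e - e * h = 2 • e → h * f - f * h = -(2 • f) →
  ∀ (W : Submodule K M) (_ : ∀ x ∈ W, e x ∈ W) (hh : ∀ x ∈ W, h x ∈ W),
  ∃ n : ℕ, LinearMap.trace K W (h.restrict hh) = n

/-- JM1: the lemma of Morozov, for the trace form. -/
def S_JM1 : Prop := ∀ (K : Type u) [Field K] [CharZero K] (V : Type v) [AddCommGroup V]
  [Module K V] [FiniteDimensional K V] (L : Submodule K (End K V)), IsLie L → NonDeg L →
  ∀ N ∈ L, IsNilpotent N → ∀ H ∈ L, H * N - N * H = 2 • N →
  (∀ z ∈ L, N * z = z * N → LinearMap.trace K V (z * H) = 0) →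
  ∃ f ∈ L, N * f - f * N = H ∧ H * f - f * H = -(2 • f)

/-- JM2: the theorem of Jacobson and Morozov, for the trace form. -/
def S_JM2 : Prop := ∀ (K : Type u) [Field K] [CharZero K] (V : Type v) [AddCommGroup V]
  [Module K V] [FiniteDimensional K V] (L : Submodule K (End K V)), IsLie L → NonDeg L →
  ∀ N ∈ L, IsNilpotent N →
  ∃ H ∈ L, ∃ f ∈ L, H * N - N * H = 2 • N ∧ N * f - f * N = H ∧ H * f - f * H = -(2 • f)

/-- RANK: the centralizers in `L` have dimension at least `r`. -/
def S_RANK : Prop := ∀ (K : Type u) [Field K] [CharZero K] (V : Type v) [AddCommGroup V]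
  [Module K V] [FiniteDimensional K V] (L : Submodule K (End K V)), IsLie L →
  ∀ h' ∈ L, ∀ (r : ℕ) (p : Fin r → K[X]) (t : Fin r → End K V), (∀ j, t j ∈ L) →
  (Matrix.of fun i j => LinearMap.trace K V (aeval h' (p i) * t j)).det ≠ 0 →
  ∀ x ∈ L, r ≤ finrank K (cen L x)

/-- CENT: a semisimple element which commutes with a regular nilpotent element is central. -/
def S_CENT : Prop := ∀ (K : Type u) [Field K] [CharZero K] (V : Type v) [AddCommGroup V]
  [Module K V] [FiniteDimensional K V] (L : Submodule K (End K V)), IsLie L → NonDeg L →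
  ∀ r : ℕ, (∀ x ∈ L, r ≤ finrank K (cen L x)) →
  ∀ N ∈ L, IsNilpotent N → finrank K (cen L N) ≤ r →
  ∀ s ∈ L, s * N = N * s → (∀ X ∈ L, adE s (adE s X) = 0 → adE s X = 0) →
  ∀ X ∈ L, s * X = X * s

/-- TRIP: the triple of a regular nilpotent element `N` and a semisimple `d` with `[d, N] = N`. -/
def S_TRIP : Prop := ∀ (K : Type u) [Field K] [CharZero K] [IsAlgClosed K] (V : Type v)
  [AddCommGroup V] [Module K V] [FiniteDimensional K V] (L : Submodule K (End K V)), IsLie L →
  NonDeg L → ∀ r : ℕ, (∀ x ∈ L, r ≤ finrank K (cen L x)) →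
  ∀ N ∈ L, IsNilpotent N → finrank K (cen L N) ≤ r →
  ∀ d ∈ L, d * N - N * d = N → (∀ X ∈ L, adE d (adE d X) = 0 → adE d X = 0) →
  ∃ c ∈ L, (∀ X ∈ L, c * X = X * c) ∧ ∃ f ∈ L,
    N * f - f * N = 2 • d - c ∧ (2 • d - c) * f - f * (2 • d - c) = -(2 • f)

/-- FIN: subalgebras which contain `N`, `d` and a torus of dimension `r`. -/
def S_FIN : Prop := ∀ (K : Type u) [Field K] [CharZero K] [IsAlgClosed K] (V : Type v)
  [AddCommGroup V] [Module K V] [FiniteDimensional K V] (G L : Submodule K (End K V)), IsLie G →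
  NonDeg G → L ≤ G → ∀ (hL : IsLie L),
  ∀ h' ∈ L, ∀ (r : ℕ) (p : Fin r → K[X]) (t : Fin r → End K V), (∀ j, t j ∈ L) →
  (Matrix.of fun i j => LinearMap.trace K V (aeval h' (p i) * t j)).det ≠ 0 →
  ∀ N ∈ L, IsNilpotent N → finrank K (cen G N) ≤ r →
  ∀ (d : End K V) (hd : d ∈ L), d * N - N * d = N →
  (∀ X ∈ G, adE d (adE d X) = 0 → adE d X = 0) →
  ∃ n : ℕ, 2 * LinearMap.trace K L ((adE d).restrict (hL.adE_mem hd)) = n ∧ (n = 0 → L = G)

/-- TR: the trace of a `θ`-operator. -/
def S_TR : Prop := ∀ (K : Type) [Field K] [CharZero K] [IsAlgClosed K] (V : Type)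
  [AddCommGroup V] [Module K V] [FiniteDimensional K V] (θ : Additive Kˣ →+ K) (g Y : End K V),
  Function.Injective g → IsOp θ g Y → LinearMap.trace K V Y = ext0 θ (LinearMap.det g)

/-- RES: subspaces stable under a power of `g` are stable under the `θ`-operators of `g`; the
restriction to a `g`-stable subspace is a `θ`-operator. -/
def S_RES : Prop := ∀ (K : Type) [Field K] [CharZero K] [IsAlgClosed K] (V : Type)
  [AddCommGroup V] [Module K V] [FiniteDimensional K V] (θ : Additive Kˣ →+ K) (g Y : End K V),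
  Function.Injective g → IsOp θ g Y → ∀ W : Submodule K V,
  (∀ M : ℕ, 0 < M → (∀ x ∈ W, (g ^ M) x ∈ W) → ∀ x ∈ W, Y x ∈ W) ∧
  ∀ (hg : ∀ x ∈ W, g x ∈ W) (hY : ∀ x ∈ W, Y x ∈ W), IsOp θ (g.restrict hg) (Y.restrict hY)

/-- AD: the `θ`-operator of the conjugation with `g`. -/
def S_AD : Prop := ∀ (K : Type) [Field K] [CharZero K] [IsAlgClosed K] (V : Type)
  [AddCommGroup V] [Module K V] [FiniteDimensional K V] (θ : Additive Kˣ →+ K) (g g' Y : End K V),
  g * g' = 1 → g' * g = 1 → IsOp θ g Y →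
  IsOp θ (AdE g g') (adE Y)

/-- DUAL: the `θ`-operator on the dual space. -/
def S_DUAL : Prop := ∀ (K : Type) [Field K] [CharZero K] [IsAlgClosed K] (V : Type)
  [AddCommGroup V] [Module K V] [FiniteDimensional K V] (θ : Additive Kˣ →+ K) (g g' Y : End K V),
  g * g' = 1 → g' * g = 1 → IsOp θ g Y →
  IsOp θ (g'.dualMap : End K (Dual K V)) (-Y.dualMap)

/-- RD: rank data from multiplicatively independent eigenvalues. -/
def S_RD : Prop := ∀ (V : Type) [AddCommGroup V] [Module ℂ V] [FiniteDimensional ℂ V]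
  (g : End ℂ V), Function.Injective g → ∀ (r : ℕ) (z : Fin r → ℂ), (∀ i, g.HasEigenvalue (z i)) →
  (∀ e : Fin r → ℤ, ∏ i, z i ^ e i = 1 → e = 0) →
  ∃ (θ' : Additive ℂˣ →+ ℂ) (θ : Fin r → (Additive ℂˣ →+ ℂ)) (p : Fin r → ℂ[X]),
  ∀ (h' : End ℂ V) (t : Fin r → End ℂ V), IsOp θ' g h' → (∀ j, IsOp (θ j) g (t j)) →
  (Matrix.of fun i j => LinearMap.trace ℂ V (aeval h' (p i) * t j)).det ≠ 0

end Pool.Agent.Y114.RM
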