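import Mathlib
import Pool.Agent.Y114.RM.Stm3

/-!
# Frobenius tori of maximal rank: task statements
-/

set_option autoImplicit false

namespace Pool.Agent.Y114.RM

open Module Polynomial TensorProduct Pool.Agent.TH118.SG Pool.Agent.Y114.MU Pool.Agent.Y114.TF
  Pool.Agent.H204R3.GP

/-- `s` is the semisimple part of `x`. -/
def IsSemisimplePart {K : Type} [Field K] {V : Type} [AddCommGroup V] [Module K V]
    (x s : End K V) : Prop :=
  (⨆ μ, End.eigenspace s μ = ⊤) ∧ IsNilpotent (x - s) ∧ ∀ y, x * y = y * x → s * y = y * s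

/-- JORD: the Lie algebra of the endomorphisms which kill some tensors contains the semisimple parts
of its elements. -/
def S_JORD : Prop := ∀ (k : Type) [Field k] [CharZero k] (C : Type) [Field C] [CharZero C]
  [IsAlgClosed C] [Algebra k C] (V : Type) [AddCommGroup V] [Module k V] [FiniteDimensional k V]
  (G : Submodule k (End k V)),
  (∀ X, (∀ (m : ℕ) (φ : Tensor k V m), (∀ Y ∈ G, KillsTensor Y φ) → KillsTensor X φ) → X ∈ G) →
  ∀ x ∈ bcS C G, ∃ s ∈ bcS C G, IsSemisimplePart x s

/-- CARTAN: a torus whose dimension is the dimension of the centralizer of an element is its own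
centralizer. -/
def S_CARTAN : Prop := ∀ (K : Type) [Field K] [CharZero K] [IsAlgClosed K] (V : Type)
  [AddCommGroup V] [Module K V] [FiniteDimensional K V] (G t : Submodule K (End K V)), IsLie G →
  NonDeg G → (∀ x ∈ G, ∃ s ∈ G, IsSemisimplePart x s) → t ≤ G →
  (∀ a ∈ t, ⨆ μ, End.eigenspace a μ = ⊤) → (∀ a ∈ t, ∀ b ∈ t, a * b = b * a) →
  (∃ X ∈ G, finrank K (cen G X) ≤ finrank K t) → ∀ x ∈ G, (∀ a ∈ t, a * x = x * a) → x ∈ t

end Pool.Agent.Y114.RM
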