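import Mathlib
import Pool.Agent.Y114.RM.Stm3

/-!
# Regular monodromy: the determinant of the adjoint representation at a regular place
-/

set_option autoImplicit false
set_option linter.unusedSectionVars false
set_option linter.unusedVariables false

namespace Pool.Agent.Y114.RM

open Module Polynomial TensorProduct Pool.Agent.TH118.SG Pool.Agent.Y114.MU Pool.Agent.Y114.TF
  Pool.Agent.H204R3.GP

/-- The inputs. -/
structure Inputs : Prop where
  fin : S_FIN.{0, 0}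
  tr : S_TR
  res : S_RES
  ad : S_AD
  ss : S_SS
  rd : S_RD
  log1 : S_LOG1
  log2 : S_LOG2
  adw : S_ADW
  cont : S_CONT
  bc : S_BC
  tor : S_TOR
  lie : S_LIE
  concl : S_CONCL

/-- The logarithm (to the base `q`) of the absolute value. -/
noncomputable def lgq (q : ℕ) : Additive ℂˣ →+ ℂ where
  toFun a := ((Real.log ‖((Additive.toMul a : ℂˣ) : ℂ)‖ / Real.log q : ℝ) : ℂ)
  map_zero' := by simp
  map_add' a b := by
    rw [toMul_add, Units.val_mul, norm_mul, Real.log_mul (norm_ne_zero_iff.2 (Units.ne_zero _))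
      (norm_ne_zero_iff.2 (Units.ne_zero _)), add_div]
    push_cast
    rfl

theorem ext0_lgq {q : ℕ} {z : ℂ} (hz : z ≠ 0) :
    ext0 (lgq q) z = ((Real.log ‖z‖ / Real.log q : ℝ) : ℂ) := by
  rw [ext0_ne _ hz]
  rfl

section bc

variable {k : Type} [Field k] {C : Type} [Field C] [Algebra k C] {V : Type} [AddCommGroup V]
  [Module k V]

theorem mem_bcS {L : Submodule k (End k V)} {X : End k V} (hX : X ∈ L) :
    X.baseChange C ∈ bcS C L := Submodule.subset_span ⟨X, hX, rfl⟩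

theorem bcS_mono {L G : Submodule k (End k V)} (h : L ≤ G) : bcS C L ≤ bcS C G :=
  Submodule.span_mono (Set.image_mono h)

theorem bc_mul (X Y : End k V) :
    (X * Y).baseChange C = X.baseChange C * Y.baseChange C := LinearMap.baseChange_comp _ _

theorem bc_one : (1 : End k V).baseChange C = 1 := LinearMap.baseChange_id

theorem AdE_bcS {L : Submodule k (End k V)} {g g' : End k V} (h : ∀ X ∈ L, AdE g g' X ∈ L) :
    ∀ X ∈ bcS C L, AdE (g.baseChange C) (g'.baseChange C) X ∈ bcS C L := by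
  intro X hX
  induction hX using Submodule.span_induction with
  | mem X hX =>
    obtain ⟨Y, hY, rfl⟩ := hX
    have h1 : AdE (g.baseChange C) (g'.baseChange C) (Y.baseChange C) =
        (AdE g g' Y).baseChange C := by
      rw [AdE_apply, AdE_apply, bc_mul, bc_mul]
    rw [h1]
    exact mem_bcS (h Y hY)
  | zero => rw [map_zero]; exact Submodule.zero_mem _
  | add X Y _ _ hX hY => rw [map_add]; exact Submodule.add_mem _ hX hY
  | smul c X _ hX => rw [map_smul]; exact Submodule.smul_mem _ _ hX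

end bc

section loc

variable {k : Type} [Field k] [CharZero k] [Algebra k ℂ] {V : Type} [AddCommGroup V] [Module k V]
  [FiniteDimensional k V] {Γ : Type} [Group Γ] (ρ : Representation k Γ V)

theorem rho_mul_inv (γ : Γ) : ρ γ * ρ γ⁻¹ = 1 := by rw [← map_mul, mul_inv_cancel, map_one]

theorem rho_inv_mul (γ : Γ) : ρ γ⁻¹ * ρ γ = 1 := by rw [← map_mul, inv_mul_cancel, map_one]

/-- The operators attached to group elements are in the Lie algebra. -/
theorem op_mem (h : Inputs) {L : Submodule k (End k V)} (hL : ∀ X, X ∈ L ↔ X ∈ LT ρ) (γ : Γ)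
    (θ : Additive ℂˣ →+ ℂ) (Y : End ℂ (ℂ ⊗[k] V)) (hY : IsOp θ ((ρ γ).baseChange ℂ) Y) :
    Y ∈ bcS ℂ L := by
  rw [(h.bc k ℂ V L).1]
  intro π
  rw [hL]
  refine ⟨?_, ?_⟩
  · rintro W ⟨Δ, hΔ, hW⟩
    obtain ⟨M, hM0, -, hM⟩ := Subgroup.exists_pow_mem_of_index_ne_zero hΔ.index_ne_zero γ
    exact (h.tor k ℂ V (ρ γ) (ρ γ⁻¹) (rho_mul_inv ρ γ) (rho_inv_mul ρ γ) θ Y hY M hM0 π).2 W
      (fun x hx => by rw [← map_pow]; exact hW _ hM x hx)
  · rintro m φ ⟨Δ, hΔ, hφ⟩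
    obtain ⟨M, hM0, -, hM⟩ := Subgroup.exists_pow_mem_of_index_ne_zero hΔ.index_ne_zero γ
    exact (h.tor k ℂ V (ρ γ) (ρ γ⁻¹) (rho_mul_inv ρ γ) (rho_inv_mul ρ γ) θ Y hY M hM0 π).1 m φ
      (fun v => by rw [← map_pow, ← map_pow, inv_pow]; exact hφ _ hM v)

theorem injective_of_mul {K W : Type} [Field K] [AddCommGroup W] [Module K W] {g g' : End K W}
    (h : g' * g = 1) : Function.Injective g := fun x y hxy => by
  have h1 := congrArg g' hxy
  rwa [← Module.End.mul_apply, ← Module.End.mul_apply, h, Module.End.one_apply,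
    Module.End.one_apply] at h1

theorem detOn_ne_zero {K W : Type} [Field K] [AddCommGroup W] [Module K W] (L : Submodule K W)
    (T : End K W) (h : ∀ X ∈ L, T X ∈ L) (hinj : Function.Injective T) [FiniteDimensional K W] :
    detOn L T h ≠ 0 := by
  intro h4
  have h5 := LinearMap.bot_lt_ker_of_det_eq_zero (f := T.restrict h) h4
  have h6 : Function.Injective (T.restrict h) := fun x y hxy =>
    Subtype.ext (hinj (congrArg Subtype.val hxy))
  rw [LinearMap.ker_eq_bot.2 h6] at h5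
  exact lt_irrefl _ h5

/-- The determinant of the adjoint representation at a place of regular monodromy. -/
theorem regular_local (h : Inputs) {L G : Submodule k (End k V)} (hL : ∀ X, X ∈ L ↔ X ∈ LT ρ)
    (hLie : IsLie L) (hAd : ∀ γ, ∀ X ∈ L, AdE (ρ γ) (ρ γ⁻¹) X ∈ L)
    (hlog : ∀ (τ : Γ) (d : ℕ), 2 ≤ d → (ρ τ - 1) ^ d = 0 → lgA d (ρ τ - 1) 1 ∈ L)
    (hG : IsLie G) (hnd : NonDeg G) (hLG : L ≤ G) {r : ℕ} (g₀ : Γ) (z : Fin r → ℂ)
    (hz : ∀ i, End.HasEigenvalue ((ρ g₀).baseChange ℂ) (z i))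
    (hind : ∀ e : Fin r → ℤ, ∏ i, z i ^ e i = 1 → e = 0)
    {τ φ : Γ} (hτ : IsNilpotent (ρ τ - 1)) (hcen : finrank k (cen G (ρ τ)) ≤ r) {q : ℕ}
    (hq : 2 ≤ q) (hφ : ρ (φ * τ * φ⁻¹) = ρ (τ ^ q)) :
    ∃ n : ℕ, ‖algebraMap k ℂ (detOn L (AdE (ρ φ) (ρ φ⁻¹)) (hAd φ))‖ ^ 2 = (q : ℝ) ^ n ∧
      (n = 0 → L = G) := by
  obtain ⟨m, hm⟩ := hτ
  have hm2 : (ρ τ - 1) ^ (m + 2) = 0 := by rw [pow_add, hm, zero_mul]
  set N : End k V := lgA (m + 2) (ρ τ - 1) 1 with hN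
  have hNL : N ∈ L := hlog τ (m + 2) (by omega) hm2
  have hNnil : IsNilpotent N := lgA_one_nil m ⟨m, hm⟩
  have hNφ : ρ φ * N * ρ φ⁻¹ = q • N := by
    refine h.log2 k V (ρ τ - 1) (ρ φ) (ρ φ⁻¹) (m + 2) q (by omega) hm2 (rho_mul_inv ρ φ)
      (rho_inv_mul ρ φ) ?_
    rw [add_sub_cancel, ← map_mul, ← map_mul, hφ, map_pow]
  have hcenN : cen G N ≤ cen G (ρ τ) := by
    intro X hX
    obtain ⟨hXG, hXN⟩ := mem_cen.1 hX
    refine mem_cen.2 ⟨hXG, ?_⟩
    have h1 := (h.log1 k V (ρ τ - 1) (m + 2) (by omega) hm2).2 X hXN.symm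
    rw [mul_sub, sub_mul, mul_one, one_mul, sub_left_inj] at h1
    exact h1.symm
  have hcenr : finrank k (cen G N) ≤ r := (Submodule.finrank_mono hcenN).trans hcen
  -- the base change
  set gC : End ℂ (ℂ ⊗[k] V) := (ρ φ).baseChange ℂ with hgC
  set g'C : End ℂ (ℂ ⊗[k] V) := (ρ φ⁻¹).baseChange ℂ with hg'C
  set NC : End ℂ (ℂ ⊗[k] V) := N.baseChange ℂ with hNC
  have hgg' : gC * g'C = 1 := by rw [hgC, hg'C, ← bc_mul, rho_mul_inv, bc_one]
  have hg'g : g'C * gC = 1 := by rw [hgC, hg'C, ← bc_mul, rho_inv_mul, bc_one]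
  have hNCL : NC ∈ bcS ℂ L := mem_bcS hNL
  have hNCnil : IsNilpotent NC := by
    obtain ⟨a, ha⟩ := hNnil
    refine ⟨a, ?_⟩
    have h1 : ∀ b : ℕ, NC ^ b = (N ^ b).baseChange ℂ := by
      intro b
      induction b with
      | zero => rw [pow_zero, pow_zero, bc_one]
      | succ b ih => rw [pow_succ, pow_succ, bc_mul, ih]
    rw [h1, ha, LinearMap.baseChange_zero]
  have hcenC : finrank ℂ (cen (bcS ℂ G) NC) ≤ r := by
    rw [(h.bc k ℂ V G).2.2.2.1 N]
    exact hcenr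
  -- the operator `d`
  obtain ⟨d, hd⟩ := exists_op gC (fun z => ext0 (lgq q) z)
  have hd' : IsOp (lgq q) gC d := hd
  have hdL : d ∈ bcS ℂ L := op_mem ρ h hL φ (lgq q) d hd'
  have hadd : IsOp (lgq q) (AdE gC g'C) (adE d) := h.ad ℂ _ (lgq q) gC g'C d hgg' hg'g hd'
  have hqC : (q : ℂ) ≠ 0 := Nat.cast_ne_zero.2 (by omega)
  have hqR : (1 : ℝ) < q := by exact_mod_cast (by omega : 1 < q)
  have hlogq : 0 < Real.log q := Real.log_pos hqR
  have hdN : d * NC - NC * d = NC := by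
    have h1 : AdE gC g'C NC = (q : ℂ) • NC := by
      rw [AdE_apply, hgC, hg'C, hNC, ← bc_mul, ← bc_mul, ← mul_assoc, hNφ, Nat.cast_smul_eq_nsmul]
      exact map_nsmul (LinearMap.baseChangeHom k ℂ V V) q N
    have h2 : NC ∈ (AdE gC g'C).maxGenEigenspace (q : ℂ) := by
      rw [mem_gen]
      refine ⟨1, ?_⟩
      rw [pow_one, LinearMap.sub_apply, Module.algebraMap_end_apply, h1, sub_self]
    have h3 := hadd (q : ℂ) NC h2
    rw [adE_apply, ext0_lgq hqC, Complex.norm_natCast, div_self hlogq.ne', Complex.ofReal_one,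
      one_smul] at h3
    exact h3
  have hss : ∀ X ∈ bcS ℂ G, adE d (adE d X) = 0 → adE d X = 0 := fun X _ =>
    h.ss ℂ _ (lgq q) (AdE gC g'C) (adE d) hadd X
  -- the rank
  have hinj₀ : Function.Injective ((ρ g₀).baseChange ℂ) := injective_of_mul
    (g' := (ρ g₀⁻¹).baseChange ℂ) (by rw [← bc_mul, rho_inv_mul, bc_one])
  obtain ⟨θ', θ, p, hp⟩ := h.rd _ ((ρ g₀).baseChange ℂ) hinj₀ r z hz hind
  obtain ⟨h', hh'⟩ := exists_op ((ρ g₀).baseChange ℂ) (fun z => ext0 θ' z)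
  have hex : ∀ j, ∃ t : End ℂ (ℂ ⊗[k] V), IsOp (θ j) ((ρ g₀).baseChange ℂ) t := fun j =>
    exists_op ((ρ g₀).baseChange ℂ) (fun z => ext0 (θ j) z)
  choose t ht using hex
  have hdet := hp h' t hh' ht
  have hLieC : IsLie (bcS ℂ L) := (h.bc k ℂ V L).2.1 hLie
  obtain ⟨n, hn1, hn2⟩ := h.fin ℂ _ (bcS ℂ G) (bcS ℂ L) ((h.bc k ℂ V G).2.1 hG)
    ((h.bc k ℂ V G).2.2.1 hnd) (bcS_mono hLG) hLieC h' (op_mem ρ h hL g₀ θ' h' hh') r p t
    (fun j => op_mem ρ h hL g₀ (θ j) (t j) (ht j)) hdet NC hNCL hNCnil hcenC d hdL hdN hss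
  refine ⟨n, ?_, fun h0 => (h.bc k ℂ V G).2.2.2.2.1 L hLG (hn2 h0)⟩
  -- the determinant
  have hAdC := AdE_bcS (C := ℂ) (hAd φ)
  have hinjA : Function.Injective (AdE gC g'C) := by
    apply injective_of_mul (g' := AdE g'C gC)
    refine LinearMap.ext fun X => ?_
    rw [Module.End.mul_apply, AdE_apply, AdE_apply, Module.End.one_apply, mul_assoc, mul_assoc,
      hg'g, mul_one, ← mul_assoc, hg'g, one_mul]
  have hinjR : Function.Injective ((AdE gC g'C).restrict hAdC) := by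
    intro x y hxy
    exact Subtype.ext (hinjA (congrArg Subtype.val hxy))
  have h1 := (h.res ℂ _ (lgq q) (AdE gC g'C) (adE d) hinjA hadd (bcS ℂ L)).2 hAdC
    (hLieC.adE_mem hdL)
  have h2 := h.tr ℂ _ (lgq q) _ _ hinjR h1
  set D : ℂ := algebraMap k ℂ (detOn L (AdE (ρ φ) (ρ φ⁻¹)) (hAd φ)) with hD
  have h3 : LinearMap.det (M := bcS ℂ L) ((AdE gC g'C).restrict hAdC) = D :=
    (h.bc k ℂ V L).2.2.2.2.2 (ρ φ) (ρ φ⁻¹) (hAd φ) hAdC
  have hD0 : D ≠ 0 := by
    rw [← h3]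
    exact detOn_ne_zero _ _ hAdC hinjA
  rw [h3, ext0_lgq hD0] at h2
  rw [h2] at hn1
  have h4 : 2 * (Real.log ‖D‖ / Real.log q) = n := by exact_mod_cast hn1
  have h5 : Real.log (‖D‖ ^ 2) = Real.log ((q : ℝ) ^ n) := by
    rw [Real.log_pow, Real.log_pow, ← h4]
    field_simp
    norm_num
    ring
  exact Real.log_injOn_pos (by
    rw [Set.mem_Ioi]
    exact pow_pos (norm_pos_iff.2 hD0) 2) (by
    rw [Set.mem_Ioi]
    positivity) h5

end loc

end Pool.Agent.Y114.RM
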