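import Mathlib
import Pool.Agent.Y114.RM.Local
import Pool.Agent.Y114.MU.Irr

/-!
# Regular monodromy: the main theorem, given the inputs
-/

set_option autoImplicit false
set_option linter.unusedSectionVars false
set_option linter.unusedVariables false

namespace Pool.Agent.Y114.RM

open NumberField IsDedekindDomain Module Polynomial TensorProduct Pool.Agent.TH118.SG
  Pool.Agent.Y114.MU Pool.Agent.Y114.TF Pool.Agent.Y114.GF Pool.Agent.H204R3.GP
open Pool.Agent.W569.FM Pool.Agent.W571.FM Pool.Agent.Y115.R Pool.Agent.Y115.T Pool.Agent.Y115.Chi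

section sums

variable {k : Type} [Field k] [CharZero k] {ι : Type} [Fintype ι] [DecidableEq ι] {V : ι → Type}
  [∀ i, AddCommGroup (V i)] [∀ i, Module k (V i)] {Γ : Type} [Group Γ]
  (ρ : ∀ i, Representation k Γ (V i))

theorem sumRep_nil {g : Γ} (h : ∀ i, IsNilpotent (ρ i g - 1)) : IsNilpotent (sumRep ρ g - 1) := by
  choose m hm using h
  refine ⟨∑ i, m i, ?_⟩
  have h1 : sumRep ρ g - 1 = piE (fun i => ρ i g - 1) := by
    rw [sumRep_eq, ← map_one (piE (k := k) (V := V)), ← map_sub]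
    rfl
  rw [h1, ← map_pow]
  have h2 : (fun i => ρ i g - 1) ^ (∑ i, m i) = 0 := by
    funext i
    rw [Pi.pow_apply, Pi.zero_apply, ← Finset.add_sum_erase _ _ (Finset.mem_univ i), pow_add, hm,
      zero_mul]
  rw [h2, map_zero]

theorem sumRep_congr {g h : Γ} (hgh : ∀ i, ρ i g = ρ i h) : sumRep ρ g = sumRep ρ h := by
  rw [sumRep_eq, sumRep_eq]
  congr 1
  exact funext hgh

/-- The eigenvalues of the parts are eigenvalues of the sum. -/
theorem sumRep_eigen [Algebra k ℂ] [∀ i, FiniteDimensional k (V i)] (g : Γ) {i : ι} {P : ℚ[X]}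
    (hP : (ρ i g).charpoly = P.map (algebraMap ℚ k)) {z : ℂ} (hz : aeval z P = 0) :
    End.HasEigenvalue ((sumRep ρ g).baseChange ℂ) z := by
  have h1 : End.HasEigenvalue ((ρ i g).baseChange ℂ) z := by
    rw [Module.End.hasEigenvalue_iff_isRoot_charpoly, LinearMap.charpoly_baseChange, hP,
      Polynomial.map_map, IsRoot.def, eval_map]
    rw [aeval_def] at hz
    rw [← hz]
    congr 1
    exact Subsingleton.elim _ _
  obtain ⟨x, hx⟩ := h1.exists_hasEigenvector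
  have hinj : Function.Injective ((LinearMap.single k V i).baseChange ℂ) := by
    have h2 : (LinearMap.proj (R := k) (φ := V) i).baseChange ℂ ∘ₗ
        (LinearMap.single k V i).baseChange ℂ = LinearMap.id := by
      rw [← LinearMap.baseChange_comp, LinearMap.proj_comp_single_same, LinearMap.baseChange_id]
    intro a b hab
    have h3 := congrArg ((LinearMap.proj (R := k) (φ := V) i).baseChange ℂ) hab
    rw [← LinearMap.comp_apply, ← LinearMap.comp_apply, h2] at h3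
    exact h3
  refine Module.End.hasEigenvalue_of_hasEigenvector (x := (LinearMap.single k V i).baseChange ℂ x)
    ⟨?_, ?_⟩
  · rw [Module.End.mem_eigenspace_iff]
    have h2 : (sumRep ρ g).baseChange ℂ ∘ₗ (LinearMap.single k V i).baseChange ℂ =
        (LinearMap.single k V i).baseChange ℂ ∘ₗ (ρ i g).baseChange ℂ := by
      rw [← LinearMap.baseChange_comp, ← LinearMap.baseChange_comp]
      congr 1
      refine LinearMap.ext fun y => ?_
      exact sumRep_single ρ g i y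
    rw [← LinearMap.comp_apply, h2, LinearMap.comp_apply, Module.End.mem_eigenspace_iff.1 hx.1,
      map_smul]
  · intro h0
    exact hx.2 (hinj (by rw [h0, map_zero]))

end sums

section ad

variable {k : Type} [Field k] {V : Type} [AddCommGroup V] [Module k V] [FiniteDimensional k V]

theorem detOn_one {L : Submodule k (End k V)} (h : ∀ X ∈ L, AdE 1 1 X ∈ L) :
    detOn L (AdE 1 1) h = 1 := by
  unfold detOn
  have h1 : (AdE (1 : End k V) 1).restrict h = LinearMap.id := by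
    refine LinearMap.ext fun x => Subtype.ext ?_
    change 1 * ((x : End k V) * 1) = x
    rw [one_mul, mul_one]
  rw [h1]
  exact LinearMap.det_id

/-- The adjoint action of a unipotent element has determinant one. -/
theorem detOn_unip {L : Submodule k (End k V)} {g g' : End k V} (hgg' : g * g' = 1)
    (hg : IsNilpotent (g - 1)) (h : ∀ X ∈ L, AdE g g' X ∈ L) :
    detOn L (AdE g g') h = 1 := by
  have hg' : IsNilpotent (g' - 1) := by
    obtain ⟨m, hm⟩ := hg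
    refine ⟨m, ?_⟩
    have hg'g : g' * g = 1 := mul_eq_one_comm.1 hgg'
    have h1 : g' - 1 = -(g' * (g - 1)) := by rw [mul_sub, mul_one, hg'g]; abel
    have hc : Commute g' (g - 1) := by
      rw [Commute, SemiconjBy, mul_sub, sub_mul, hgg', hg'g, mul_one, one_mul]
    rw [h1, neg_pow, hc.mul_pow, hm, mul_zero, mul_zero]
  -- the conjugation is unipotent
  have hA : IsNilpotent (AdE g g' - 1) := by
    have h1 : AdE g g' - 1 = LinearMap.mulLeft k (g - 1) * LinearMap.mulRight k g' +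
        LinearMap.mulRight k (g' - 1) := by
      refine LinearMap.ext fun X => ?_
      change g * (X * g') - X = (g - 1) * (X * g') + X * (g' - 1)
      rw [sub_mul, one_mul, mul_sub, mul_one]
      abel
    have hLnil : IsNilpotent (LinearMap.mulLeft k (g - 1)) := by
      obtain ⟨m, hm⟩ := hg
      exact ⟨m, by rw [LinearMap.pow_mulLeft, hm, LinearMap.mulLeft_zero_eq_zero]⟩
    have hRnil : IsNilpotent (LinearMap.mulRight k (g' - 1)) := by
      obtain ⟨m, hm⟩ := hg'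
      exact ⟨m, by rw [LinearMap.pow_mulRight, hm, LinearMap.mulRight_zero_eq_zero]⟩
    have hLR : ∀ a b : End k V, Commute (LinearMap.mulLeft k a) (LinearMap.mulRight k b) :=
      fun a b => LinearMap.ext fun X => (mul_assoc a X b).symm
    have h2 : IsNilpotent (LinearMap.mulLeft k (g - 1) * LinearMap.mulRight k g') :=
      (hLR _ _).isNilpotent_mul_right hLnil
    have h3 : Commute (LinearMap.mulLeft k (g - 1) * LinearMap.mulRight k g')
        (LinearMap.mulRight k (g' - 1)) := by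
      refine Commute.mul_left (hLR _ _) ?_
      refine LinearMap.ext fun X => ?_
      change (X * (g' - 1)) * g' = (X * g') * (g' - 1)
      rw [mul_assoc X, mul_assoc X, sub_mul, mul_sub g', one_mul, mul_one]
    rw [h1]
    exact h3.isNilpotent_add h2 hRnil
  have hR : IsNilpotent ((AdE g g').restrict h - 1) := by
    obtain ⟨m, hm⟩ := hA
    have h3 : ∀ x ∈ L, (AdE g g' - 1) x ∈ L := by
      intro x hx
      rw [LinearMap.sub_apply, Module.End.one_apply]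
      exact Submodule.sub_mem _ (h x hx) hx
    have h4 : (AdE g g').restrict h - 1 = (AdE g g' - 1).restrict h3 := by
      refine LinearMap.ext fun x => Subtype.ext ?_
      rfl
    refine ⟨m, ?_⟩
    rw [h4, Module.End.pow_restrict]
    refine LinearMap.ext fun x => Subtype.ext ?_
    change ((AdE g g' - 1) ^ m) x = 0
    rw [hm]
    rfl
  unfold detOn
  have h3 : (AdE g g').restrict h = 1 + ((AdE g g').restrict h - 1) := by abel
  rw [h3]
  exact det_one_add_nilpotent hR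

end ad

section main

variable {F : Type} [Field F] [NumberField F] {ι : Type} [Fintype ι] [DecidableEq ι] {n : ι → ℕ}
  {w : ι → ℤ} {ℓ : ℕ} [hℓ : Fact ℓ.Prime]
  (ρ : ∀ i, Representation ℚ_[ℓ] Gal(AlgebraicClosure F/F) (Fin (n i) → ℚ_[ℓ]))

theorem two_le_q (v : HeightOneSpectrum (𝓞 F)) : 2 ≤ q v := by
  unfold q
  have h1 : Ideal.absNorm v.asIdeal ≠ 0 := by
    rw [Ne, Ideal.absNorm_eq_zero_iff]
    exact v.ne_bot
  have h2 : Ideal.absNorm v.asIdeal ≠ 1 := by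
    rw [Ne, Ideal.absNorm_eq_one_iff]
    exact v.isPrime.ne_top
  omega

theorem main (h : Inputs) (hρ : ∀ i, Continuous fun g => LinearMap.toMatrix' (ρ i g))
    (𝔤 : Submodule ℚ_[ℓ] (End ℚ_[ℓ] (∀ i, Fin (n i) → ℚ_[ℓ]))) (h𝔤 : IsMotivic ρ 𝔤)
    (T : Set ℕ) (hT3 : 3 ≤ T.encard) (hT : ∀ p ∈ T, p.Prime ∧ p ≠ ℓ ∧ UnramifiedIn F p)
    (hgood : ∀ p ∈ T, ∀ v, Above v p → ∃ P, GoodPlace ρ w v P)
    (r : ℕ) {v₀ : HeightOneSpectrum (𝓞 F)} {P₀ : ι → ℚ[X]}
    (h₀ : GoodPlace ρ w v₀ P₀) (hr : IndependentRoots r P₀) {p₁ : ℕ}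
    (hp₁ : p₁.Prime ∧ p₁ ≠ ℓ ∧ UnramifiedIn F p₁) {v₁ : HeightOneSpectrum (𝓞 F)}
    (hv₁ : Above v₁ p₁) (hreg : RegularPlace ρ 𝔤 r v₁)
    (hall : ∀ v, Above v p₁ → RegularPlace ρ 𝔤 r v ∨ ∃ P, GoodPlace ρ w v P) :
    FiniteIndexSemisimple (sumRep ρ) ∧ ∀ (m : ℕ) (φ : Tensor ℚ_[ℓ] (∀ i, Fin (n i) → ℚ_[ℓ]) m),
      TateTensor (sumRep ρ) φ → ∀ X ∈ 𝔤, KillsTensor X φ := by
  classical
  obtain ⟨j, hj⟩ := exists_j ℓ ℚ_[ℓ] ℚ (algebraMap ℚ ℚ_[ℓ]) (algebraMap ℚ ℂ)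
  let _ : Algebra ℚ_[ℓ] ℂ := j.toAlgebra
  have hjalg : ∀ x : ℚ_[ℓ], algebraMap ℚ_[ℓ] ℂ x = j x := fun _ => rfl
  obtain ⟨L, hL, hLie, hAd, hlog⟩ := h.lie ℚ_[ℓ] (∀ i, Fin (n i) → ℚ_[ℓ]) _ (sumRep ρ)
  have hLG : L ≤ 𝔤 := fun X hX => h𝔤.algebraic X fun m φ hφ => ((hL X).1 hX).2 m φ (h𝔤.tate m φ hφ)
  obtain ⟨ψ, hψc, hψ⟩ := h.cont ℓ ι n _ ρ hρ L hAd
  -- the conclusion follows from `L = 𝔤`
  suffices hfin : L = 𝔤 by
    refine ⟨h.concl _ ι _ _ ρ 𝔤 h𝔤 fun X hX => (hL X).1 (hfin ▸ hX), fun m φ hφ X hX => ?_⟩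
    exact ((hL X).1 (hfin ▸ hX)).2 m φ hφ
  -- Frobenius elements
  have hfr₀ : ∀ v : HeightOneSpectrum (𝓞 F), ∃ (Q : Ideal (OO F)) (σ : GF F), Q.IsMaximal ∧
      cm Q = v.asIdeal ∧ FrobAt (Ideal.absNorm v.asIdeal) Q σ := fun v => frob_cm v
  choose Q₀ σ₀ hQ₀ hQ₀v hσ₀ using hfr₀
  have hℓv : ∀ p, p.Prime → p ≠ ℓ → ∀ v : HeightOneSpectrum (𝓞 F), Above v p → ¬ Above v ℓ :=
    fun p hp hne v hv => not_above_of_ne hp hℓ.out hne hv
  -- places of good reduction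
  have hgoodin : ∀ v : HeightOneSpectrum (𝓞 F), (∃ P, GoodPlace ρ w v P) →
      (∀ Q : Ideal (OO F), Q.IsPrime → cm Q = v.asIdeal → ∀ g, InInertia Q g → ψ g = 1) ∧
      IsAlgebraic ℚ (ψ (σ₀ v) : ℚ_[ℓ]) ∧ ‖j (ψ (σ₀ v) : ℚ_[ℓ])‖ ^ 2 =
        (Ideal.absNorm v.asIdeal : ℝ) ^ (0 : ℤ) := by
    rintro v ⟨P', hP'⟩
    refine ⟨fun Q hQ hQv g hg => ?_, ?_⟩
    · apply Units.ext
      rw [hψ, Units.val_one]
      have h1 : sumRep ρ g = 1 := by
        rw [← map_one (sumRep ρ)]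
        exact sumRep_congr ρ fun i => by rw [hP'.unramified i Q ⟨hQ, hQv⟩ g hg, map_one]
      have h2 : sumRep ρ g⁻¹ = 1 := by
        have h3 := rho_mul_inv (sumRep ρ) g
        rwa [h1, one_mul] at h3
      have h3 : ∀ (a b : End ℚ_[ℓ] (∀ i, Fin (n i) → ℚ_[ℓ])) (hab : ∀ X ∈ L, AdE a b X ∈ L),
          a = 1 → b = 1 → detOn L (AdE a b) hab = 1 := by
        rintro a b hab rfl rfl
        exact detOn_one hab
      exact h3 _ _ _ h1 h2
    · obtain ⟨h1, h2⟩ := h.adw ℓ j ι n (sumRep ρ (σ₀ v)⁻¹) (sumRep ρ ((σ₀ v)⁻¹)⁻¹)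
        (fun i => ρ i (σ₀ v)⁻¹) P' (fun i => (q v : ℝ) ^ w i) (rho_mul_inv _ _) (rho_inv_mul _ _)
        (fun _ _ => rfl) (fun i => hP'.frobenius i (Q₀ v) ⟨(hQ₀ v).isPrime, hQ₀v v⟩ (σ₀ v) (hσ₀ v))
        hP'.pure L (fun X hX => h𝔤.parts X (hLG hX)) (hAd _)
      rw [← hψ] at h1 h2
      have h4 : (ψ (σ₀ v)⁻¹ : ℚ_[ℓ]) = (ψ (σ₀ v) : ℚ_[ℓ])⁻¹ := by
        rw [map_inv, Units.val_inv_eq_inv_val]
      rw [h4] at h1 h2
      refine ⟨IsAlgebraic.inv_iff.1 h1, ?_⟩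
      rw [map_inv₀, norm_inv, inv_eq_one] at h2
      rw [h2, one_pow, zpow_zero]
  -- rank data
  obtain ⟨z, hz, hind⟩ := hr
  have hz' : ∀ i, End.HasEigenvalue ((sumRep ρ (σ₀ v₀)⁻¹).baseChange ℂ) (z i) := by
    intro i
    obtain ⟨a, ha⟩ := hz i
    exact sumRep_eigen ρ (σ₀ v₀)⁻¹ (h₀.frobenius a (Q₀ v₀) ⟨(hQ₀ v₀).isPrime, hQ₀v v₀⟩ (σ₀ v₀)
      (hσ₀ v₀)) ha
  -- places of regular monodromy
  have hregin : ∀ v : HeightOneSpectrum (𝓞 F), RegularPlace ρ 𝔤 r v →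
      (∀ Q : Ideal (OO F), Q.IsPrime → cm Q = v.asIdeal → ∀ g, InInertia Q g → ψ g = 1) ∧
      ∃ nv : ℕ, ‖j (ψ (σ₀ v) : ℚ_[ℓ])‖ ^ 2 = (Ideal.absNorm v.asIdeal : ℝ) ^ (nv : ℤ) ∧
        (nv = 0 → L = 𝔤) := by
    intro v hv
    refine ⟨fun Q hQ hQv g hg => ?_, ?_⟩
    · apply Units.ext
      rw [hψ, Units.val_one]
      exact detOn_unip (rho_mul_inv _ _) (sumRep_nil ρ ((hv Q ⟨hQ, hQv⟩).1 g hg)) _
    · obtain ⟨hun, τ, hτ, hcen, hφ⟩ := hv (Q₀ v) ⟨(hQ₀ v).isPrime, hQ₀v v⟩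
      obtain ⟨nv, h1, h2⟩ := regular_local (sumRep ρ) h hL hLie hAd hlog h𝔤.bracket h𝔤.nondeg hLG
        (σ₀ v₀)⁻¹ z hz' hind (τ := τ) (φ := σ₀ v) (sumRep_nil ρ (hun τ hτ)) hcen (two_le_q v)
        (sumRep_congr ρ (hφ (σ₀ v) (hσ₀ v)))
      refine ⟨nv, ?_, h2⟩
      rw [← hψ, hjalg] at h1
      rw [h1, zpow_natCast]
      rfl
  -- the weights
  set nn : HeightOneSpectrum (𝓞 F) → ℤ := fun v =>
    if hv : RegularPlace ρ 𝔤 r v then ((hregin v hv).2.choose : ℤ) else 0 with hnn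
  have key := two_weights ψ hψc T hT3 hT hp₁ (fun v => ψ (σ₀ v)) (by
    intro p hp v hv Q hQ hQv
    have hin : ∀ Q : Ideal (OO F), Q.IsPrime → cm Q = v.asIdeal → ∀ g, InInertia Q g →
        ψ g = 1 := by
      rcases hp with h | rfl
      · exact (hgoodin v (hgood p h v hv)).1
      · rcases hall v hv with h | h
        · exact (hregin v h).1
        · exact (hgoodin v h).1
    exact ⟨hin Q hQ hQv, fun φ hφ => frob_value ψ v hin (hQ₀ v).isPrime hQ (hQ₀v v) hQv (hσ₀ v) hφ⟩)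
    (fun p hp v hv => (hgoodin v (hgood p hp v hv)).2.1) j 0
    (fun p hp v hv => (hgoodin v (hgood p hp v hv)).2.2) nn (by
      intro v hv
      rw [hnn]
      beta_reduce
      split_ifs with hc
      · exact (hregin v hc).2.choose_spec.1
      · exact (hgoodin v ((hall v hv).resolve_left hc)).2.2) (by
      intro v hv
      rw [hnn]
      beta_reduce
      split_ifs with hc
      · exact Int.natCast_nonneg _
      · exact le_rfl) v₁ hv₁
  rw [hnn] at key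
  beta_reduce at key
  rw [dif_pos hreg] at key
  exact (hregin v₁ hreg).2.choose_spec.2 (by exact_mod_cast key)

end main

end Pool.Agent.Y114.RM
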