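import Mathlib
import Pool.Agent.Y114.RM.Main
import Pool.Agent.Y434.RM.Gen
import Pool.Agent.Y960.RM.Nat
import Pool.Agent.Y37.RM.JM
import Pool.Agent.Y809.RM.Rank
import Pool.Agent.Y809.RM.Trip
import Pool.Agent.Y761.RM.Fin
import Pool.Agent.Y960.RM.TH
import Pool.Agent.Y960.RM.SS
import Pool.Agent.Y86.RM.RD
import Pool.Agent.Y41.RM.Log
import Pool.Agent.Y220.RM.ADW
import Pool.Agent.Y620.RM.Cont
import Pool.Agent.Y872.RM.Cent
import Pool.Agent.Y86.RM.Tor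
import Pool.Agent.Y41.RM.LieL
import Pool.Agent.Y41.RM.Concl
import Pool.Agent.Y809.RM.BC

/-!
# Regular monodromy: the inputs
-/

set_option autoImplicit false

namespace Pool.Agent.Y114.RM

open Pool.Agent

theorem inputs : Inputs where
  fin := Y761.RM.fin Y809.RM.rank (Y809.RM.trip (Y872.RM.cent Y37.RM.jm2 Y434.RM.Gen.gen) Y37.RM.jm1)
    Y960.RM.nat Y434.RM.Gen.gen
  tr := Y960.RM.tr
  res := Y960.RM.res
  ad := Y960.RM.ad
  ss := Y960.RM.ss
  rd := Y86.RM.rd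
  log1 := Y41.RM.log1
  log2 := Y41.RM.log2
  adw := Y220.RM.adw
  cont := Y620.RM.cont
  bc := Y809.RM.BC.bc
  tor := Y86.RM.tor Y960.RM.res
  lie := Y41.RM.lieL'
  concl := Y41.RM.concl

end Pool.Agent.Y114.RM
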