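import Mathlib
import Pool.Agent.Y114.MU.Weight

/-!
# Characters of weight zero: the product of the Frobenius values over the places above a prime is a
# root of unity
-/

set_option autoImplicit false
set_option linter.unusedSectionVars false
set_option linter.unusedVariables false

namespace Pool.Agent.Y114.RM

open NumberField IsDedekindDomain Module Pool.Agent.W569.FM Pool.Agent.W571.FM
open Pool.Agent.Y115.CQ Pool.Agent.Y115.T Pool.Agent.Y115.Chi Pool.Agent.Y114.MU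

variable {F : Type} [Field F] [NumberField F]

variable {ℓ : ℕ} [hℓ : Fact ℓ.Prime]

/-- The product of the values of a character of weight zero at the Frobenius elements of the places
above one prime is a root of unity. -/
theorem prod_torsion (ψ : GF F →* ℚ_[ℓ]ˣ) (hψ : Continuous ψ) (T : Set ℕ) (hT3 : 3 ≤ T.encard)
    (hT : ∀ p ∈ T, p.Prime ∧ p ≠ ℓ ∧ Unram F p)
    (d : HeightOneSpectrum (𝓞 F) → ℚ_[ℓ]ˣ)
    (hd : ∀ p ∈ T, ∀ v : HeightOneSpectrum (𝓞 F), (p : 𝓞 F) ∈ v.asIdeal →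
      ∀ Q : Ideal (OO F), Q.IsPrime → cm Q = v.asIdeal → (∀ τ, InInertia Q τ → ψ τ = 1) ∧
        ∀ φ, FrobAt (Ideal.absNorm v.asIdeal) Q φ → ψ φ = d v)
    (halg : ∀ p ∈ T, ∀ v : HeightOneSpectrum (𝓞 F), (p : 𝓞 F) ∈ v.asIdeal →
      IsAlgebraic ℚ (d v : ℚ_[ℓ])) (j : ℚ_[ℓ] →+* ℂ)
    (hw : ∀ p ∈ T, ∀ v : HeightOneSpectrum (𝓞 F), (p : 𝓞 F) ∈ v.asIdeal →
      ‖j (d v : ℚ_[ℓ])‖ = 1) (p : ℕ) (hp : p ∈ T) :
    ∃ M : ℕ, 0 < M ∧ ∃ S : Finset (HeightOneSpectrum (𝓞 F)),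
      (∀ v, v ∈ S ↔ (p : 𝓞 F) ∈ v.asIdeal) ∧ (∏ v ∈ S, d v) ^ M = 1 := by
  classical
  set θ : GF ℚ →* ℚ_[ℓ]ˣ := MonoidHom.transfer (ψ.comp (cc F)) with hθ
  have hθc : Continuous θ := continuous_transfer (isOpen_core F) _ (hψ.comp (continuous_cc F))
  obtain ⟨t, htT, ht3⟩ := Set.exists_subset_encard_eq hT3
  have htfin : t.Finite := Set.finite_of_encard_eq_coe ht3
  have htc : Nat.card t = 3 := by
    have h1 : Nat.card t = t.ncard := Nat.card_coe_set_eq t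
    have h2 : (t.ncard : ℕ∞) = 3 := by rw [htfin.cast_ncard_eq]; exact ht3
    rw [h1]
    exact_mod_cast h2
  have hfin : Finite t := htfin
  obtain ⟨e⟩ : Nonempty (Fin 3 ≃ t) := by
    rw [← htc]
    exact ⟨(Finite.equivFin t).symm⟩
  set l : Fin 3 → ℕ := fun i => (e i : ℕ) with hl
  have hlT : ∀ i, l i ∈ T := fun i => htT (e i).2
  have hchoose : ∀ p : ℕ, p.Prime → ∃ (P : Ideal (OO ℚ)) (σ : GF ℚ), P.IsMaximal ∧
    (p : OO ℚ) ∈ P ∧ FrobAt p P σ := fun p hp => exists_frobQ hp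
  choose P σ hP hpP hσ using hchoose
  have key := char_main θ hθc l (fun i => (hT _ (hlT i)).1)
    (fun i j hij => e.injective (Subtype.ext hij)) (fun i => (hT _ (hlT i)).2.1)
    (fun i => P (l i) (hT _ (hlT i)).1) (fun i => (hP _ _).isPrime) (fun i => hpP _ _)
    (fun i => σ (l i) (hT _ (hlT i)).1) (fun i => hσ _ _) (by
      intro i
      obtain ⟨M, S, hM, hS, heq, -⟩ := transfer_frob ψ (hT _ (hlT i)).1 (hP (l i) (hT _ (hlT i)).1)
        (hpP (l i) (hT _ (hlT i)).1) (hσ (l i) (hT _ (hlT i)).1) (hT _ (hlT i)).2.2 d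
        (hd _ (hlT i))
      have h1 : IsAlgebraic ℚ ((θ (σ (l i) (hT _ (hlT i)).1) : ℚ_[ℓ]) ^ M) := by
        rw [← Units.val_pow_eq_pow_val, hθ, heq, Units.val_pow_eq_pow_val]
        apply IsAlgebraic.pow
        rw [Units.coe_prod]
        have h2 : ∀ s : Finset (HeightOneSpectrum (𝓞 F)),
            (∀ v ∈ s, IsAlgebraic ℚ (d v : ℚ_[ℓ])) →
            IsAlgebraic ℚ (∏ v ∈ s, (d v : ℚ_[ℓ])) := by
          intro s
          induction s using Finset.induction_on with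
          | empty =>
            intro _
            rw [Finset.prod_empty]
            exact isAlgebraic_one
          | insert v s hv ih =>
            intro h
            rw [Finset.prod_insert hv]
            exact (h v (Finset.mem_insert_self v s)).mul
              (ih fun w hw => h w (Finset.mem_insert_of_mem hw))
        exact h2 S fun v hv => halg _ (hlT i) v ((hS v).1 hv)
      exact IsAlgebraic.of_pow hM h1)
  obtain ⟨N, a', hN, hNa⟩ := key
  have hrel : ∀ p (hp : p ∈ T), ∃ (M : ℕ) (S : Finset (HeightOneSpectrum (𝓞 F))), 0 < M ∧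
      (∀ v, v ∈ S ↔ (p : 𝓞 F) ∈ v.asIdeal) ∧
      (∏ v ∈ S, d v) ^ (M * N) = (chiE ℓ ℚ_[ℓ] (σ p (hT p hp).1) ^ a') ^ M := by
    intro p hp
    obtain ⟨hpp, hne, hur⟩ := hT p hp
    obtain ⟨M, S, hM, hS, heq, f, hf, hsum⟩ := transfer_frob ψ hpp (hP p hpp) (hpP p hpp) (hσ p hpp)
      hur d (hd p hp)
    exact ⟨M, S, hM, hS, by rw [pow_mul, ← heq, ← pow_mul, mul_comm, pow_mul, ← hNa]⟩
  -- the exponent is zero
  have ha : a' = 0 := by
    obtain ⟨M, S, hM, hS, h1⟩ := hrel (l 0) (hlT 0)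
    obtain ⟨hpp, hne, hur⟩ := hT (l 0) (hlT 0)
    have hpr : (1 : ℝ) < l 0 := by exact_mod_cast hpp.one_lt
    have h2 : (chiE ℓ ℚ_[ℓ] (σ (l 0) hpp) : ℚ_[ℓ]) = (l 0 : ℚ_[ℓ]) := by
      rw [coe_chiE, chi_frob (hP _ hpp).isPrime (not_mem_of_ne hpp hne (hP _ hpp).ne_top
        (hpP _ hpp)) (hσ _ hpp)]
      simp
    have h3 := congrArg (fun u : ℚ_[ℓ]ˣ => ‖j (u : ℚ_[ℓ])‖) h1
    simp only [Units.val_pow_eq_pow_val, Units.coe_prod, Units.val_zpow_eq_zpow_val] at h3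
    rw [h2, map_pow, map_prod, map_pow, map_zpow₀, map_natCast, norm_pow, norm_pow, norm_zpow,
      Complex.norm_natCast, norm_prod, Finset.prod_congr rfl
      (fun v hv => hw (l 0) (hlT 0) v ((hS v).1 hv)), Finset.prod_const_one, one_pow] at h3
    have h4 : ((l 0 : ℝ) ^ a') ^ M = (l 0 : ℝ) ^ (a' * M) := by
      rw [zpow_mul]
      exact_mod_cast rfl
    rw [h4] at h3
    have h5 : (l 0 : ℝ) ^ (0 : ℤ) = (l 0 : ℝ) ^ (a' * M) := by rw [zpow_zero, h3]
    have h7 := zpow_right_injective₀ (by linarith) hpr.ne' h5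
    have hM0 : (M : ℤ) ≠ 0 := by exact_mod_cast hM.ne'
    exact (mul_eq_zero.1 h7.symm).resolve_right hM0
  obtain ⟨M, S, hM, hS, h1⟩ := hrel p hp
  refine ⟨M * N, Nat.mul_pos hM hN, S, hS, ?_⟩
  rw [h1, ha, zpow_zero, one_pow]

end Pool.Agent.Y114.RM
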