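import Mathlib
import Pool.Agent.Y114.RM.Stm3

/-!
# Maximal Frobenius tori: task statements
-/

set_option autoImplicit false

namespace Pool.Agent.Y114.RM

open Module Polynomial TensorProduct Pool.Agent.TH118.SG Pool.Agent.Y114.MU Pool.Agent.Y114.TF
  Pool.Agent.H204R3.GP

/-- The group generated by the quotients of two complex roots of one of the polynomials `P i`. -/
def ratioGroup {ι : Type} (P : ι → ℚ[X]) : Subgroup ℂˣ :=
  Subgroup.closure {u | ∃ i, ∃ a ∈ (P i).aroots ℂ, ∃ b ∈ (P i).aroots ℂ, (u : ℂ) * b = a}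

/-- RATIO: the determinant of the conjugation with a Frobenius element on a stable space of
endomorphisms is in the group generated by the quotients of the eigenvalues. -/
def S_RATIO : Prop := ∀ (ℓ : ℕ) [Fact ℓ.Prime] (j : ℚ_[ℓ] →+* ℂ) (ι : Type) [Fintype ι]
  [DecidableEq ι] (n : ι → ℕ) (g g' : End ℚ_[ℓ] (∀ i, Fin (n i) → ℚ_[ℓ]))
  (gi : ∀ i, End ℚ_[ℓ] (Fin (n i) → ℚ_[ℓ])) (P : ι → ℚ[X]),
  g * g' = 1 → g' * g = 1 → (∀ x i, g x i = gi i (x i)) →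
  (∀ i, (gi i).charpoly = (P i).map (algebraMap ℚ ℚ_[ℓ])) →
  ∀ (L : Submodule ℚ_[ℓ] (End ℚ_[ℓ] (∀ i, Fin (n i) → ℚ_[ℓ]))),
  (∀ X ∈ L, ∀ x i, X x i = X (Pi.single i (x i)) i) →
  ∀ (hL : ∀ X ∈ L, AdE g g' X ∈ L), ∃ u ∈ ratioGroup P, (u : ℂ) = j (detOn L (AdE g g') hL)

/-- UNI: the logarithm of the unipotent part. -/
def S_UNI : Prop := ∀ (k : Type) [Field k] [CharZero k] (C : Type) [Field C] [CharZero C]
  [IsAlgClosed C] [Algebra k C] (V : Type) [AddCommGroup V] [Module k V] [FiniteDimensional k V]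
  (g g' : End k V), g * g' = 1 → g' * g = 1 → ∃ (N : End C (C ⊗[k] V)) (M : ℕ),
  IsNilpotent N ∧ 0 < M ∧
  (∀ (θ : Additive Cˣ →+ C) (Z : End C (C ⊗[k] V)), IsOp θ (g.baseChange C) Z → Z * N = N * Z) ∧
  (∀ M' : ℕ, 0 < M' → ∀ π : C →ₗ[k] k,
    (∀ W : Submodule k V, (∀ x ∈ W, (g ^ M') x ∈ W) → ∀ x ∈ W, pM π N x ∈ W) ∧
    ∀ (m : ℕ) (φ : Tensor k V m), (∀ v, φ (fun l => grp (g ^ M') (g' ^ M') (v l)) = φ v) →
      KillsTensor (pM π N) φ) ∧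
  ∀ Y : End C (C ⊗[k] V), N * Y = Y * N →
    (∀ (θ : Additive Cˣ →+ C) (Z : End C (C ⊗[k] V)), IsOp θ (g.baseChange C) Z → Z * Y = Y * Z) →
    (g ^ M).baseChange C * Y = Y * (g ^ M).baseChange C

/-- TFR: if all elements act with finite order on a stable space of endomorphisms, then an open
subgroup acts trivially. -/
def S_TFR : Prop := ∀ (ℓ : ℕ) [Fact ℓ.Prime] (ι : Type) [Fintype ι] [DecidableEq ι]
  (n : ι → ℕ) (Γ : Type) [Group Γ] [TopologicalSpace Γ] [IsTopologicalGroup Γ] [CompactSpace Γ]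
  (ρ : ∀ i, Representation ℚ_[ℓ] Γ (Fin (n i) → ℚ_[ℓ])),
  (∀ i, Continuous fun g => LinearMap.toMatrix' (ρ i g)) →
  ∀ (A : Submodule ℚ_[ℓ] (End ℚ_[ℓ] (∀ i, Fin (n i) → ℚ_[ℓ]))),
  (∀ γ : Γ, ∀ Y ∈ A, AdE (sumRep ρ γ) (sumRep ρ γ⁻¹) Y ∈ A) →
  (∀ γ : Γ, ∃ M : ℕ, 0 < M ∧ ∀ Y ∈ A, sumRep ρ γ ^ M * Y = Y * sumRep ρ γ ^ M) →
  ∃ Δ : Subgroup Γ, Δ.FiniteIndex ∧ ∀ γ ∈ Δ, ∀ Y ∈ A, sumRep ρ γ * Y = Y * sumRep ρ γ

/-- SYM: a Lie algebra which contains a maximal torus, with traces zero, has a nondegenerate trace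
form. -/
def S_SYM : Prop := ∀ (K : Type) [Field K] [CharZero K] [IsAlgClosed K] (V : Type)
  [AddCommGroup V] [Module K V] [FiniteDimensional K V] (G L t : Submodule K (End K V)), IsLie G →
  NonDeg G → L ≤ G → ∀ (hL : IsLie L) (ht : t ≤ L), (∀ a ∈ t, ⨆ μ, End.eigenspace a μ = ⊤) →
  (∀ a ∈ t, ∀ b ∈ t, a * b = b * a) → (∀ x ∈ G, (∀ a ∈ t, a * x = x * a) → x ∈ t) →
  (∀ (a : End K V) (ha : a ∈ t), LinearMap.trace K L ((adE a).restrict (hL.adE_mem (ht ha))) = 0) →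
  NonDeg L

/-- WEYL: complete reducibility. -/
def S_WEYL : Prop := ∀ (K : Type) [Field K] [CharZero K] [IsAlgClosed K] (V : Type)
  [AddCommGroup V] [Module K V] [FiniteDimensional K V] (L : Submodule K (End K V)), IsLie L →
  NonDeg L → (∀ z ∈ L, (∀ X ∈ L, z * X = X * z) → ⨆ μ, End.eigenspace z μ = ⊤) →
  ∀ W : Submodule K V, (∀ X ∈ L, ∀ x ∈ W, X x ∈ W) →
  ∃ P : End K V, (∀ X ∈ L, X * P = P * X) ∧ (∀ x, P x ∈ W) ∧ ∀ x ∈ W, P x = x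

/-- GOUR: a Lie algebra which contains a maximal torus and has the same image as `G` in all
blocks. -/
def S_GOUR : Prop := ∀ (K : Type) [Field K] [CharZero K] [IsAlgClosed K] (V : Type)
  [AddCommGroup V] [Module K V] [FiniteDimensional K V] (G L t : Submodule K (End K V)), IsLie G →
  NonDeg G → L ≤ G → IsLie L → t ≤ L → (∀ a ∈ t, ⨆ μ, End.eigenspace a μ = ⊤) →
  (∀ a ∈ t, ∀ b ∈ t, a * b = b * a) → (∀ x ∈ G, (∀ a ∈ t, a * x = x * a) → x ∈ t) →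
  ∀ (ι : Type) [Fintype ι] (e : ι → End K V), ∑ i, e i = 1 →
  (∀ i, ∀ X ∈ G, e i * X = X * e i) → (∀ i, ∀ X ∈ G, ∃ Y ∈ L, e i * Y = e i * X) → L = G

end Pool.Agent.Y114.RM
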