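import Mathlib
import Pool.Agent.Y114.RM.Torus
import Pool.Agent.Y114.RM.Torsion
import Pool.Agent.Y114.RM.Main

/-!
# Maximal Frobenius tori: semisimplicity
-/

set_option autoImplicit false
set_option linter.unusedSectionVars false
set_option linter.unusedVariables false

namespace Pool.Agent.Y114.RM

open NumberField IsDedekindDomain Module Polynomial TensorProduct Pool.Agent.TH118.SG
  Pool.Agent.Y114.MU Pool.Agent.Y114.TF Pool.Agent.Y114.GF Pool.Agent.H204R3.GP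
open Pool.Agent.W569.FM Pool.Agent.W571.FM Pool.Agent.Y115.R Pool.Agent.Y115.T Pool.Agent.Y115.Chi

section tensor

variable {k : Type} [Field k] {V : Type} [AddCommGroup V] [Module k V] {Γ : Type} [Group Γ]
  (ρ : Representation k Γ V)

/-- An endomorphism which kills the Tate tensors commutes with the endomorphisms which commute with
a subgroup of finite index. -/
theorem tate_comm {X : End k V}
    (hX : ∀ (m : ℕ) (φ : Tensor k V m), TateTensor ρ φ → KillsTensor X φ) {P : End k V}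
    {Δ : Subgroup Γ} (hΔ : Δ.FiniteIndex) (hP : ∀ s ∈ Δ, P * ρ s = ρ s * P) : X * P = P * X := by
  let ω : (V × Dual k V) →ₗ[k] (V × Dual k V) →ₗ[k] k :=
    LinearMap.mk₂ k (fun a b => b.2 (P a.1))
      (fun a a' b => by rw [Prod.fst_add, map_add, map_add])
      (fun c a b => by rw [Prod.smul_fst, map_smul, map_smul])
      (fun a b b' => by rw [Prod.snd_add, LinearMap.add_apply])
      (fun c a b => by rw [Prod.smul_snd, LinearMap.smul_apply])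
  let φ : Tensor k V 2 := Pool.Agent.H204R3.SP.bil2 ω
  have hφ : ∀ v, φ v = (v 1).2 (P (v 0).1) := fun v => rfl
  have hT : TateTensor ρ φ := by
    refine ⟨Δ, hΔ, fun s hs v => ?_⟩
    rw [hφ, hφ]
    change (v 1).2 (ρ s⁻¹ (P (ρ s (v 0).1))) = (v 1).2 (P (v 0).1)
    congr 1
    rw [← Module.End.mul_apply P, hP s hs, Module.End.mul_apply, ← Module.End.mul_apply,
      ← map_mul, inv_mul_cancel, map_one, Module.End.one_apply]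
  have h1 := hX 2 φ hT
  refine LinearMap.ext fun x => ?_
  rw [← sub_eq_zero, ← Module.forall_dual_apply_eq_zero_iff k]
  intro ξ
  have h2 := h1 ![(x, 0), (0, ξ)]
  rw [Fin.sum_univ_two, hφ, hφ, Function.update_self, Function.update_self,
    Function.update_of_ne Fin.zero_ne_one.symm, Function.update_of_ne Fin.zero_ne_one] at h2
  change ξ (P (X x)) + -(ξ (X (P x))) = 0 at h2
  rw [map_sub, Module.End.mul_apply, Module.End.mul_apply, sub_eq_zero]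
  linear_combination -h2

/-- If the representation is semisimple, the endomorphisms which kill the Tate tensors preserve the
subspaces stable under a subgroup of finite index. -/
theorem mem_LT_of_semisimple (hss : FiniteIndexSemisimple ρ) {X : End k V}
    (hX : ∀ (m : ℕ) (φ : Tensor k V m), TateTensor ρ φ → KillsTensor X φ) : X ∈ LT ρ := by
  refine ⟨?_, hX⟩
  rintro W ⟨Δ, hΔ, hW⟩ x hx
  obtain ⟨P, hP1, hP2, hP3⟩ := hasProj_of hss Δ hΔ W hW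
  have h1 := tate_comm ρ hX (P := P) hΔ (fun s hs => LinearMap.ext fun v => hP3 s hs v)
  have h2 := LinearMap.congr_fun h1 x
  rw [Module.End.mul_apply, Module.End.mul_apply, hP2 x hx] at h2
  rw [h2]
  exact hP1 _

end tensor

section loc

variable {k : Type} [Field k] [CharZero k] [Algebra k ℂ] {V : Type} [AddCommGroup V] [Module k V]
  [FiniteDimensional k V] {Γ : Type} [Group Γ] (ρ : Representation k Γ V)

/-- The centralizer of a space of endomorphisms. -/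
def comm (L : Submodule k (End k V)) : Submodule k (End k V) where
  carrier := {Y | ∀ X ∈ L, X * Y = Y * X}
  add_mem' := fun ha hb X hX => by rw [mul_add, add_mul, ha X hX, hb X hX]
  zero_mem' := fun X hX => by rw [mul_zero, zero_mul]
  smul_mem' := fun c a ha X hX => by rw [mul_smul_comm, smul_mul_assoc, ha X hX]

theorem comm_conj {L : Submodule k (End k V)} (hAd : ∀ γ, ∀ X ∈ L, AdE (ρ γ) (ρ γ⁻¹) X ∈ L)
    (γ : Γ) : ∀ Y ∈ comm L, AdE (ρ γ) (ρ γ⁻¹) Y ∈ comm L := by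
  intro Y hY X hX
  have h1 := hY _ (hAd γ⁻¹ X hX)
  rw [AdE_apply, inv_inv] at h1
  rw [AdE_apply]
  have h2 : ρ γ * (ρ γ⁻¹ * (X * ρ γ) * Y) * ρ γ⁻¹ = ρ γ * (Y * (ρ γ⁻¹ * (X * ρ γ))) * ρ γ⁻¹ := by
    rw [h1]
  have h3 : ρ γ * (ρ γ⁻¹ * (X * ρ γ) * Y) * ρ γ⁻¹ = X * (ρ γ * (Y * ρ γ⁻¹)) := by
    simp only [mul_assoc]
    rw [← mul_assoc (ρ γ) (ρ γ⁻¹), rho_mul_inv, one_mul]
  have h4 : ρ γ * (Y * (ρ γ⁻¹ * (X * ρ γ))) * ρ γ⁻¹ = ρ γ * (Y * ρ γ⁻¹) * X := by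
    simp only [mul_assoc]
    rw [rho_mul_inv, mul_one]
  rw [h3, h4] at h2
  exact h2

/-- Every group element acts with finite order on the centralizer. -/
theorem comm_order (h : Inputs) (h2 : Inputs2) {L : Submodule k (End k V)}
    (hL : ∀ X, X ∈ L ↔ X ∈ LT ρ) (γ : Γ) :
    ∃ M : ℕ, 0 < M ∧ ∀ Y ∈ comm L, ρ γ ^ M * Y = Y * ρ γ ^ M := by
  obtain ⟨N, M, hNL, hM, hNt, hNM⟩ := uni_mem ρ h h2 hL γ
  refine ⟨M, hM, fun Y hY => ?_⟩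
  have h3 := hNM (Y.baseChange ℂ) (bcS_comm hY N hNL) fun Z hZ =>
    bcS_comm hY Z (tor_le ρ h hL γ hZ)
  rw [← bc_mul, ← bc_mul] at h3
  exact bc_inj h3

end loc

section main

variable {F : Type} [Field F] [NumberField F] {ι : Type} [Fintype ι] [DecidableEq ι] {n : ι → ℕ}
  {w : ι → ℤ} {ℓ : ℕ} [hℓ : Fact ℓ.Prime]
  (ρ : ∀ i, Representation ℚ_[ℓ] Gal(AlgebraicClosure F/F) (Fin (n i) → ℚ_[ℓ]))

/-- The places above `p` are independent: if a product of numbers `x v` in the groups generated by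
the quotients of the Frobenius eigenvalues at the places `v` above `p` is a root of unity, then all
`x v` are roots of unity. -/
def IndependentPlaces (P : HeightOneSpectrum (𝓞 F) → ι → ℚ[X]) (p : ℕ) : Prop :=
  ∀ x : HeightOneSpectrum (𝓞 F) → ℂˣ, (∀ v, Above v p → x v ∈ ratioGroup (P v)) →
    (∃ m : ℕ, 0 < m ∧ (∏ᶠ (v : HeightOneSpectrum (𝓞 F)) (_ : Above v p), x v) ^ m = 1) →
    ∀ v, Above v p → ∃ m : ℕ, 0 < m ∧ x v ^ m = 1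

theorem independentPlaces_of_one (P : HeightOneSpectrum (𝓞 F) → ι → ℚ[X]) {p : ℕ}
    {v₀ : HeightOneSpectrum (𝓞 F)} (h : ∀ v, Above v p ↔ v = v₀) : IndependentPlaces P p := by
  rintro x hx ⟨m, hm, h1⟩ v hv
  refine ⟨m, hm, ?_⟩
  rw [(h v).1 hv]
  rw [← h1]
  congr 1
  have h2 : (∏ᶠ (v : HeightOneSpectrum (𝓞 F)) (_ : Above v p), x v) = ∏ v ∈ {v₀}, x v := by
    refine finprod_cond_eq_prod_of_cond_iff _ fun {v} _ => ?_
    rw [h v, Finset.mem_singleton]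
  rw [h2, Finset.prod_singleton]

theorem semi_main (h : Inputs) (h2 : Inputs2) (hrank : S_RANK.{0, 0})
    (hρ : ∀ i, Continuous fun g => LinearMap.toMatrix' (ρ i g))
    (𝔤 : Submodule ℚ_[ℓ] (End ℚ_[ℓ] (∀ i, Fin (n i) → ℚ_[ℓ]))) (h𝔤 : IsMotivic ρ 𝔤)
    (P : HeightOneSpectrum (𝓞 F) → ι → ℚ[X])
    (T : Set ℕ) (hT3 : 3 ≤ T.encard) (hT : ∀ p ∈ T, p.Prime ∧ p ≠ ℓ ∧ UnramifiedIn F p)
    (hgood : ∀ p ∈ T, ∀ v, Above v p → GoodPlace ρ w v (P v))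
    {p₀ : ℕ} (hp₀ : p₀ ∈ T) (hind₀ : IndependentPlaces P p₀) {v₀ : HeightOneSpectrum (𝓞 F)}
    (hv₀ : Above v₀ p₀) (r : ℕ) (hr : IndependentRoots r (P v₀))
    (hrk : RankAtMost 𝔤 r) :
    ∃ (L : Submodule ℚ_[ℓ] (End ℚ_[ℓ] (∀ i, Fin (n i) → ℚ_[ℓ])))
      (_ : Algebra ℚ_[ℓ] ℂ) (t : Submodule ℂ (End ℂ (ℂ ⊗[ℚ_[ℓ]] (∀ i, Fin (n i) → ℚ_[ℓ])))),
      FiniteIndexSemisimple (sumRep ρ) ∧
      (∀ X, X ∈ L ↔ ∀ (m : ℕ) (φ : Tensor ℚ_[ℓ] (∀ i, Fin (n i) → ℚ_[ℓ]) m),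
        TateTensor (sumRep ρ) φ → KillsTensor X φ) ∧ IsLie L ∧ L ≤ 𝔤 ∧ NonDeg L ∧
      (∀ x ∈ L, r ≤ finrank ℚ_[ℓ] (cen L x)) ∧
      (∀ (τ : GF F) (d : ℕ), 2 ≤ d → (sumRep ρ τ - 1) ^ d = 0 →
        lgA d (sumRep ρ τ - 1) 1 ∈ L) ∧
      t ≤ bcS ℂ L ∧ (∀ a ∈ t, ⨆ μ, End.eigenspace a μ = ⊤) ∧
      (∀ a ∈ t, ∀ b ∈ t, a * b = b * a) ∧
      (∀ x ∈ bcS ℂ 𝔤, (∀ a ∈ t, a * x = x * a) → x ∈ t) := by
  classical
  obtain ⟨j, hj⟩ := exists_j ℓ ℚ_[ℓ] ℚ (algebraMap ℚ ℚ_[ℓ]) (algebraMap ℚ ℂ)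
  let _ : Algebra ℚ_[ℓ] ℂ := j.toAlgebra
  have hjalg : ∀ x : ℚ_[ℓ], algebraMap ℚ_[ℓ] ℂ x = j x := fun _ => rfl
  obtain ⟨L, hL, hLie, hAd, hlog⟩ := h.lie ℚ_[ℓ] (∀ i, Fin (n i) → ℚ_[ℓ]) _ (sumRep ρ)
  have hLG : L ≤ 𝔤 := fun X hX => h𝔤.algebraic X fun m φ hφ => ((hL X).1 hX).2 m φ (h𝔤.tate m φ hφ)
  obtain ⟨ψ, hψc, hψ⟩ := h.cont ℓ ι n _ ρ hρ L hAd
  -- Frobenius elements
  have hfr₀ : ∀ v : HeightOneSpectrum (𝓞 F), ∃ (Q : Ideal (OO F)) (σ : GF F), Q.IsMaximal ∧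
      cm Q = v.asIdeal ∧ FrobAt (Ideal.absNorm v.asIdeal) Q σ := fun v => frob_cm v
  choose Q₀ σ₀ hQ₀ hQ₀v hσ₀ using hfr₀
  have hinv : ∀ g : GF F, (ψ g⁻¹ : ℚ_[ℓ]) = (ψ g : ℚ_[ℓ])⁻¹ := by
    intro g
    rw [map_inv, Units.val_inv_eq_inv_val]
  -- places of good reduction
  have hgoodin : ∀ v : HeightOneSpectrum (𝓞 F), ∀ P', GoodPlace ρ w v P' →
      (∀ Q : Ideal (OO F), Q.IsPrime → cm Q = v.asIdeal → ∀ g, InInertia Q g → ψ g = 1) ∧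
      IsAlgebraic ℚ (ψ (σ₀ v) : ℚ_[ℓ]) ∧ ‖j (ψ (σ₀ v) : ℚ_[ℓ])‖ = 1 ∧
      ∃ u ∈ ratioGroup P', (u : ℂ) = j (ψ (σ₀ v)⁻¹ : ℚ_[ℓ]) := by
    rintro v P' hP'
    refine ⟨fun Q hQ hQv g hg => ?_, ?_⟩
    · apply Units.ext
      rw [hψ, Units.val_one]
      have h1 : sumRep ρ g = 1 := by
        rw [← map_one (sumRep ρ)]
        exact sumRep_congr ρ fun i => by rw [hP'.unramified i Q ⟨hQ, hQv⟩ g hg, map_one]
      have h2 : sumRep ρ g⁻¹ = 1 := by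
        have h3 := rho_mul_inv (sumRep ρ) g
        rwa [h1, one_mul] at h3
      have h3 : ∀ (a b : End ℚ_[ℓ] (∀ i, Fin (n i) → ℚ_[ℓ])) (hab : ∀ X ∈ L, AdE a b X ∈ L),
          a = 1 → b = 1 → detOn L (AdE a b) hab = 1 := by
        rintro a b hab rfl rfl
        exact detOn_one hab
      exact h3 _ _ _ h1 h2
    · obtain ⟨h1, h3⟩ := h.adw ℓ j ι n (sumRep ρ (σ₀ v)⁻¹) (sumRep ρ ((σ₀ v)⁻¹)⁻¹)
        (fun i => ρ i (σ₀ v)⁻¹) P' (fun i => (q v : ℝ) ^ w i) (rho_mul_inv _ _) (rho_inv_mul _ _)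
        (fun _ _ => rfl) (fun i => hP'.frobenius i (Q₀ v) ⟨(hQ₀ v).isPrime, hQ₀v v⟩ (σ₀ v) (hσ₀ v))
        hP'.pure L (fun X hX => h𝔤.parts X (hLG hX)) (hAd _)
      obtain ⟨u, hu, hu'⟩ := h2.ratio ℓ j ι n (sumRep ρ (σ₀ v)⁻¹) (sumRep ρ ((σ₀ v)⁻¹)⁻¹)
        (fun i => ρ i (σ₀ v)⁻¹) P' (rho_mul_inv _ _) (rho_inv_mul _ _)
        (fun _ _ => rfl) (fun i => hP'.frobenius i (Q₀ v) ⟨(hQ₀ v).isPrime, hQ₀v v⟩ (σ₀ v) (hσ₀ v))
        L (fun X hX => h𝔤.parts X (hLG hX)) (hAd _)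
      rw [← hψ] at h1 h3 hu'
      refine ⟨?_, ?_, u, hu, hu'⟩
      · rw [hinv] at h1
        exact IsAlgebraic.inv_iff.1 h1
      · rw [hinv, map_inv₀, norm_inv, inv_eq_one] at h3
        exact h3
  -- rank data
  have hG₀ := hgood p₀ hp₀ v₀ hv₀
  obtain ⟨z, hz, hind⟩ := hr
  have hz' : ∀ i, End.HasEigenvalue ((sumRep ρ (σ₀ v₀)⁻¹).baseChange ℂ) (z i) := by
    intro i
    obtain ⟨a, ha⟩ := hz i
    exact sumRep_eigen ρ (σ₀ v₀)⁻¹ (hG₀.frobenius a (Q₀ v₀) ⟨(hQ₀ v₀).isPrime, hQ₀v v₀⟩ (σ₀ v₀)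
      (hσ₀ v₀)) ha
  -- the character is a root of unity at `v₀`
  have htor : ∃ m : ℕ, 0 < m ∧ (algebraMap ℚ_[ℓ] ℂ (detOn L (AdE (sumRep ρ (σ₀ v₀)⁻¹)
      (sumRep ρ ((σ₀ v₀)⁻¹)⁻¹)) (hAd (σ₀ v₀)⁻¹))) ^ m = 1 := by
    obtain ⟨M, hM, S, hS, hprod⟩ := prod_torsion ψ hψc T hT3 hT (fun v => ψ (σ₀ v)) (by
      intro p hp v hv Q hQ hQv
      have hin := (hgoodin v (P v) (hgood p hp v hv)).1
      exact ⟨hin Q hQ hQv, fun φ hφ => frob_value ψ v hin (hQ₀ v).isPrime hQ (hQ₀v v) hQv (hσ₀ v)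
        hφ⟩) (fun p hp v hv => (hgoodin v (P v) (hgood p hp v hv)).2.1) j
      (fun p hp v hv => (hgoodin v (P v) (hgood p hp v hv)).2.2.1) p₀ hp₀
    have hu : ∀ v : HeightOneSpectrum (𝓞 F), ∃ u : ℂˣ, Above v p₀ →
        u ∈ ratioGroup (P v) ∧ (u : ℂ) = j (ψ (σ₀ v)⁻¹ : ℚ_[ℓ]) := by
      intro v
      by_cases hv : Above v p₀
      · obtain ⟨u, hu, hu'⟩ := (hgoodin v (P v) (hgood p₀ hp₀ v hv)).2.2.2
        exact ⟨u, fun _ => ⟨hu, hu'⟩⟩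
      · exact ⟨1, fun h => absurd h hv⟩
    choose u hu using hu
    obtain ⟨m, hm, hm'⟩ := hind₀ u (fun v hv => (hu v hv).1) ⟨M, hM, by
      have h3 : (∏ᶠ (v : HeightOneSpectrum (𝓞 F)) (_ : Above v p₀), u v) = ∏ v ∈ S, u v :=
        finprod_cond_eq_prod_of_cond_iff _ fun {v} _ => (hS v).symm
      rw [h3]
      apply Units.ext
      rw [Units.val_pow_eq_pow_val, Units.coe_prod, Units.val_one]
      have h4 : ∏ v ∈ S, (u v : ℂ) = (j (((∏ v ∈ S, ψ (σ₀ v) : ℚ_[ℓ]ˣ)) : ℚ_[ℓ]))⁻¹ := by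
        rw [Units.coe_prod, map_prod, ← Finset.prod_inv_distrib]
        refine Finset.prod_congr rfl fun v hv => ?_
        rw [(hu v ((hS v).1 hv)).2, hinv, map_inv₀]
      rw [h4, inv_pow, ← map_pow, ← Units.val_pow_eq_pow_val, hprod, Units.val_one, map_one,
        inv_one]⟩ v₀ hv₀
    refine ⟨m, hm, ?_⟩
    rw [← hψ, hjalg, ← (hu v₀ hv₀).2, ← Units.val_pow_eq_pow_val, hm', Units.val_one]
  -- the torus
  set t := tor ((sumRep ρ (σ₀ v₀)⁻¹).baseChange ℂ) with ht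
  have hcen := torus_cen (sumRep ρ) h h2.jord h2.cartan hL hLG h𝔤.bracket h𝔤.nondeg h𝔤.algebraic
    hrk (σ₀ v₀)⁻¹ z hz' hind
  have htr := torus_local (sumRep ρ) h hL hLie hAd (σ₀ v₀)⁻¹ htor
  obtain ⟨hND, hproj⟩ := exists_proj h h2 hLie hLG h𝔤.bracket h𝔤.nondeg
    (tor_le (sumRep ρ) h hL (σ₀ v₀)⁻¹) (tor_diag _) (tor_comm _) hcen htr
  -- semisimplicity
  obtain ⟨Δ', hΔ', hcomm⟩ := h2.tfr ℓ ι n _ ρ hρ (comm L) (comm_conj (sumRep ρ) hAd)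
    (comm_order (sumRep ρ) h h2 hL)
  have hss : FiniteIndexSemisimple (sumRep ρ) := by
    intro Δ hΔ U hU
    obtain ⟨P, hP1, hP2, hP3⟩ := hproj U fun X hX => ((hL X).1 hX).1 U ⟨Δ, hΔ, hU⟩
    exact Pool.Agent.Y41.RM.exists_compl_of_commute (sumRep ρ) Δ Δ' hΔ' U hU P hP2 hP3
      fun s hs => (hcomm s hs P hP1).symm
  refine ⟨L, _, t, hss, fun X => ⟨fun hX => ((hL X).1 hX).2, fun hX =>
    (hL X).2 (mem_LT_of_semisimple (sumRep ρ) hss hX)⟩, hLie, hLG, ?_, ?_, hlog,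
    tor_le (sumRep ρ) h hL (σ₀ v₀)⁻¹, tor_diag _, tor_comm _, hcen⟩
  · intro X hX hXY
    have h1 : X.baseChange ℂ = 0 := by
      refine hND _ (mem_bcS hX) fun Y hY => ?_
      induction hY using Submodule.span_induction with
      | mem Y hY =>
        obtain ⟨Z, hZ, rfl⟩ := hY
        rw [← bc_mul, LinearMap.trace_baseChange, hXY Z hZ, map_zero]
      | zero => rw [mul_zero, map_zero]
      | add Y Z _ _ hY hZ => rw [mul_add, map_add, hY, hZ, add_zero]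
      | smul c Y _ hY => rw [mul_smul_comm, map_smul, hY, smul_zero]
    exact bc_inj (h1.trans LinearMap.baseChange_zero.symm)
  · intro x hx
    obtain ⟨θ', θ, p, hp⟩ := h.rd _ ((sumRep ρ (σ₀ v₀)⁻¹).baseChange ℂ)
      (injective_of_mul (g' := (sumRep ρ ((σ₀ v₀)⁻¹)⁻¹).baseChange ℂ)
        (by rw [← bc_mul, rho_inv_mul, bc_one])) r z hz' hind
    obtain ⟨h', hh'⟩ := exists_op ((sumRep ρ (σ₀ v₀)⁻¹).baseChange ℂ) (fun z => ext0 θ' z)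
    have hex : ∀ j, ∃ t : End ℂ (ℂ ⊗[ℚ_[ℓ]] (∀ i, Fin (n i) → ℚ_[ℓ])),
        IsOp (θ j) ((sumRep ρ (σ₀ v₀)⁻¹).baseChange ℂ) t := fun j =>
      exists_op ((sumRep ρ (σ₀ v₀)⁻¹).baseChange ℂ) (fun z => ext0 (θ j) z)
    choose t ht using hex
    have h3 := hrank ℂ _ (bcS ℂ L) ((h.bc ℚ_[ℓ] ℂ _ L).2.1 hLie) h'
      (op_mem (sumRep ρ) h hL _ θ' h' hh') r p t
      (fun j => op_mem (sumRep ρ) h hL _ (θ j) (t j) (ht j)) (hp h' t hh' ht) (x.baseChange ℂ)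
      (mem_bcS hx)
    rwa [(h.bc ℚ_[ℓ] ℂ _ L).2.2.2.1 x] at h3

end main

end Pool.Agent.Y114.RM
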