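import Mathlib
import Pool.Agent.Y114.RM.Semi
import Pool.Agent.Y761.RM.Fin

/-!
# Maximal Frobenius tori and regular unipotent elements: the full motivic Lie algebra
-/

set_option autoImplicit false
set_option linter.unusedSectionVars false
set_option linter.unusedVariables false

namespace Pool.Agent.Y114.RM

open NumberField IsDedekindDomain Module Polynomial TensorProduct Pool.Agent.TH118.SG
  Pool.Agent.Y114.MU Pool.Agent.Y114.TF Pool.Agent.Y114.GF Pool.Agent.H204R3.GP
open Pool.Agent.W569.FM Pool.Agent.W571.FM Pool.Agent.Y115.R Pool.Agent.Y115.T Pool.Agent.Y115.Chi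

/-- The inputs of the third part. -/
structure Inputs3 : Prop where
  rank : S_RANK.{0, 0}
  jm2 : S_JM2.{0, 0}
  gen : S_GEN.{0, 0}
  gour : S_GOUR

section gen

variable {k : Type} [Field k] [CharZero k] {V : Type} [AddCommGroup V] [Module k V]
  [FiniteDimensional k V]

/-- A subalgebra which contains an `sl₂`-triple and the centralizer of its nilpositive element. -/
theorem eq_of_triple (hgen : S_GEN.{0, 0}) {G L : Submodule k (End k V)} (hG : IsLie G)
    (hL : IsLie L) (hLG : L ≤ G) {N H f : End k V} (hN : N ∈ L) (hH : H ∈ L) (hf : f ∈ L)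
    (hnil : IsNilpotent N) (h1 : H * N - N * H = 2 • N) (h2 : N * f - f * N = H)
    (h3 : H * f - f * H = -(2 • f)) (hcen : cen G N ≤ L) : L = G := by
  obtain ⟨e0, he0⟩ : ∃ e0 : End k G, ∀ x : G, (e0 x : End k V) = N * x - x * N :=
    ⟨(adE N).restrict (hG.adE_mem (hLG hN)), fun _ => rfl⟩
  obtain ⟨f0, hf0⟩ : ∃ f0 : End k G, ∀ x : G, (f0 x : End k V) = f * x - x * f :=
    ⟨(adE f).restrict (hG.adE_mem (hLG hf)), fun _ => rfl⟩
  obtain ⟨k0, hk0⟩ : ∃ k0 : End k G, ∀ x : G, (k0 x : End k V) = H * x - x * H :=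
    ⟨(adE H).restrict (hG.adE_mem (hLG hH)), fun _ => rfl⟩
  have r1 : e0 * f0 - f0 * e0 = k0 := by
    refine LinearMap.ext fun x => Subtype.ext ?_
    rw [hk0, LinearMap.sub_apply, Submodule.coe_sub, Module.End.mul_apply, Module.End.mul_apply,
      he0, hf0, hf0, he0, ← h2]
    noncomm_ring
  have r2 : k0 * e0 - e0 * k0 = 2 • e0 := by
    refine LinearMap.ext fun x => Subtype.ext ?_
    rw [LinearMap.sub_apply, Submodule.coe_sub, Module.End.mul_apply, Module.End.mul_apply,
      he0, hk0, hk0, he0, LinearMap.smul_apply, Submodule.coe_smul_of_tower, he0]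
    have h4 : H * (N * x - x * N) - (N * x - x * N) * H - (N * (H * x - x * H) -
        (H * x - x * H) * N) = (H * N - N * H) * x - x * (H * N - N * H) := by noncomm_ring
    rw [h4, h1]
    noncomm_ring
  have r3 : k0 * f0 - f0 * k0 = -(2 • f0) := by
    refine LinearMap.ext fun x => Subtype.ext ?_
    rw [LinearMap.sub_apply, Submodule.coe_sub, Module.End.mul_apply, Module.End.mul_apply,
      hf0, hk0, hk0, hf0, LinearMap.neg_apply, LinearMap.smul_apply, Submodule.coe_neg,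
      Submodule.coe_smul_of_tower, hf0]
    have h4 : H * (f * x - x * f) - (f * x - x * f) * H - (f * (H * x - x * H) -
        (H * x - x * H) * f) = (H * f - f * H) * x - x * (H * f - f * H) := by noncomm_ring
    rw [h4, h3]
    noncomm_ring
  obtain ⟨W, hW⟩ : ∃ W : Submodule k G, W = L.comap G.subtype := ⟨_, rfl⟩
  have hWm : ∀ x : G, x ∈ W ↔ (x : End k V) ∈ L := by
    intro x
    rw [hW]
    rfl
  have hnil0 : IsNilpotent e0 := by
    have h4 : e0 = (adE N).restrict (hG.adE_mem (hLG hN)) := by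
      refine LinearMap.ext fun x => Subtype.ext ?_
      rw [he0]
      rfl
    rw [h4]
    exact Pool.Agent.Y761.RM.restrict_nilpotent (Pool.Agent.Y761.RM.adE_nilpotent hnil) _ _
  have hWtop := hgen k G e0 f0 k0 r1 r2 r3 hnil0 W
    (fun x hx => by rw [hWm, hf0]; exact hL f hf x ((hWm x).1 hx))
    (fun x hx => by rw [hWm, hk0]; exact hL H hH x ((hWm x).1 hx))
    (fun x hx => by
      rw [hWm]
      refine hcen (mem_cen.2 ⟨x.2, ?_⟩)
      have h4 := congrArg Subtype.val (LinearMap.mem_ker.1 hx)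
      rw [he0] at h4
      exact sub_eq_zero.1 h4)
  refine le_antisymm hLG fun x hx => ?_
  have h4 : (⟨x, hx⟩ : G) ∈ W := by rw [hWtop]; trivial
  exact (hWm _).1 h4

end gen

section blocks

variable {k : Type} [Field k] {ι : Type} [DecidableEq ι] {V : ι → Type}
  [∀ i, AddCommGroup (V i)] [∀ i, Module k (V i)]

/-- The `i`-th block of an endomorphism of the direct sum. -/
def blk (i : ι) : End k (∀ i, V i) →ₗ[k] End k (V i) where
  toFun X := LinearMap.proj i ∘ₗ X ∘ₗ LinearMap.single k V i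
  map_add' X Y := by rw [LinearMap.add_comp, LinearMap.comp_add]
  map_smul' c X := by rw [LinearMap.smul_comp, LinearMap.comp_smul, RingHom.id_apply]

theorem blk_apply (i : ι) (X : End k (∀ i, V i)) (x : V i) : blk i X x = X (Pi.single i x) i := rfl

theorem blk_mul {i : ι} {X Y : End k (∀ i, V i)} (hX : ∀ x i, X x i = X (Pi.single i (x i)) i) :
    blk i (X * Y) = blk i X * blk i Y := by
  refine LinearMap.ext fun x => ?_
  rw [blk_apply, Module.End.mul_apply, Module.End.mul_apply, blk_apply, blk_apply, hX]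

theorem blk_one (i : ι) : blk i (1 : End k (∀ i, V i)) = 1 := by
  refine LinearMap.ext fun x => ?_
  rw [blk_apply, Module.End.one_apply, Module.End.one_apply, Pi.single_eq_same]

end blocks

section natural

variable {k : Type} [Field k] {C : Type} [Field C] [Algebra k C] {V : Type} [AddCommGroup V]
  [Module k V] {W : Type} [AddCommGroup W] [Module k W]

theorem pv_bc' (π : C →ₗ[k] k) (A : V →ₗ[k] W) (z : C ⊗[k] V) :
    pv π (A.baseChange C z) = A (pv π z) := by
  induction z with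
  | zero => simp only [map_zero]
  | add x y hx hy => simp only [map_add, hx, hy]
  | tmul c v => rw [LinearMap.baseChange_tmul, pv_tmul, pv_tmul, map_smul]

/-- Naturality of the `θ`-operators. -/
theorem op_natural {V W : Type} [AddCommGroup V] [Module ℂ V] [FiniteDimensional ℂ V]
    [AddCommGroup W] [Module ℂ W] {θ : Additive ℂˣ →+ ℂ} {g Y : End ℂ V} {g' Y' : End ℂ W}
    (hY : IsOp θ g Y) (hY' : IsOp θ g' Y') {A : V →ₗ[ℂ] W} (hA : A ∘ₗ g = g' ∘ₗ A) :
    A ∘ₗ Y = Y' ∘ₗ A := by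
  have hpow : ∀ (β : ℂ) (m : ℕ) (x : V), ((g' - algebraMap ℂ (End ℂ W) β) ^ m) (A x) =
      A (((g - algebraMap ℂ (End ℂ V) β) ^ m) x) := by
    intro β m
    induction m with
    | zero => intro x; rfl
    | succ m ih =>
      intro x
      have h1 : (g' - algebraMap ℂ (End ℂ W) β) (A x) = A ((g - algebraMap ℂ (End ℂ V) β) x) := by
        rw [LinearMap.sub_apply, LinearMap.sub_apply, Module.algebraMap_end_apply,
          Module.algebraMap_end_apply, map_sub, map_smul]
        congr 1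
        exact (LinearMap.congr_fun hA x).symm
      rw [pow_succ, pow_succ, Module.End.mul_apply, Module.End.mul_apply, h1, ih]
  have key : (⊤ : Submodule ℂ V) ≤ LinearMap.eqLocus (A ∘ₗ Y) (Y' ∘ₗ A) := by
    rw [← Module.End.iSup_maxGenEigenspace_eq_top g]
    refine iSup_le fun β x hx => ?_
    rw [LinearMap.mem_eqLocus, LinearMap.comp_apply, LinearMap.comp_apply, hY β x hx, map_smul]
    obtain ⟨m, hm⟩ := mem_gen.1 hx
    exact (hY' β (A x) (mem_gen.2 ⟨m, by rw [hpow, hm, map_zero]⟩)).symm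
  exact LinearMap.ext fun x => key (Submodule.mem_top (x := x))

end natural

section parts

variable {k : Type} [Field k] [CharZero k] [Algebra k ℂ] {ι : Type} [Fintype ι] [DecidableEq ι]
  {V : ι → Type} [∀ i, AddCommGroup (V i)] [∀ i, Module k (V i)] [∀ i, FiniteDimensional k (V i)]
  {Γ : Type} [Group Γ] (ρ : ∀ i, Representation k Γ (V i))

theorem op_block {γ : Γ} {i : ι} {θ : Additive ℂˣ →+ ℂ} {Y : End ℂ (ℂ ⊗[k] (∀ i, V i))}
    {Y' : End ℂ (ℂ ⊗[k] V i)} (hY : IsOp θ ((sumRep ρ γ).baseChange ℂ) Y)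
    (hY' : IsOp θ ((ρ i γ).baseChange ℂ) Y') (π : ℂ →ₗ[k] k) :
    (pM π Y' : End k (V i)) = blk i (pM π Y) := by
  have h1 : (LinearMap.single k V i).baseChange ℂ ∘ₗ (ρ i γ).baseChange ℂ =
      (sumRep ρ γ).baseChange ℂ ∘ₗ (LinearMap.single k V i).baseChange ℂ := by
    rw [← LinearMap.baseChange_comp, ← LinearMap.baseChange_comp]
    congr 1
    refine LinearMap.ext fun y => ?_
    exact (sumRep_single ρ γ i y).symm
  have h2 := op_natural hY' hY h1
  refine LinearMap.ext fun x => ?_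
  rw [blk_apply, pM_apply, pM_apply]
  have h3 : (1 : ℂ) ⊗ₜ[k] (Pi.single i x : ∀ i, V i) =
      (LinearMap.single k V i).baseChange ℂ (1 ⊗ₜ[k] x) := by
    rw [LinearMap.baseChange_tmul]
    rfl
  rw [h3]
  have h4 := LinearMap.congr_fun h2 ((1 : ℂ) ⊗ₜ[k] x)
  rw [LinearMap.comp_apply, LinearMap.comp_apply] at h4
  rw [← h4, pv_bc']
  exact (Pi.single_eq_same i _).symm

/-- The operators attached to group elements are in the blocks. -/
theorem op_mem_block (h : Inputs) {L : Submodule k (End k (∀ i, V i))}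
    (hL : ∀ X, X ∈ L ↔ X ∈ LT (sumRep ρ)) (γ : Γ) (i : ι) (θ : Additive ℂˣ →+ ℂ)
    (Y' : End ℂ (ℂ ⊗[k] V i)) (hY' : IsOp θ ((ρ i γ).baseChange ℂ) Y') :
    Y' ∈ bcS ℂ (L.map (blk i)) := by
  rw [(h.bc k ℂ (V i) (L.map (blk i))).1]
  intro π
  obtain ⟨Y, hY⟩ := exists_op ((sumRep ρ γ).baseChange ℂ) (fun z => ext0 θ z)
  rw [op_block ρ hY hY' π]
  exact Submodule.mem_map_of_mem (((h.bc k ℂ _ L).1 Y).1 (op_mem (sumRep ρ) h hL γ θ Y hY) π)

theorem isLie_block {L : Submodule k (End k (∀ i, V i))} (hLie : IsLie L)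
    (hparts : ∀ X ∈ L, ∀ x i, X x i = X (Pi.single i (x i)) i) (i : ι) :
    IsLie (L.map (blk i)) := by
  rintro _ ⟨X, hX, rfl⟩ _ ⟨Y, hY, rfl⟩
  refine ⟨X * Y - Y * X, hLie X hX Y hY, ?_⟩
  rw [map_sub, blk_mul (hparts X hX), blk_mul (hparts Y hY)]

theorem part_eigen (g : Γ) {i : ι} {P : ℚ[X]}
    (hP : (ρ i g).charpoly = P.map (algebraMap ℚ k)) {z : ℂ} (hz : aeval z P = 0) :
    End.HasEigenvalue ((ρ i g).baseChange ℂ) z := by
  rw [Module.End.hasEigenvalue_iff_isRoot_charpoly, LinearMap.charpoly_baseChange, hP,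
    Polynomial.map_map, IsRoot.def, eval_map]
  rw [aeval_def] at hz
  rw [← hz]
  congr 1
  exact Subsingleton.elim _ _

/-- A block which contains a regular unipotent element is full. -/
theorem block_full (h : Inputs) (h3 : Inputs3) {L G : Submodule k (End k (∀ i, V i))}
    (hL : ∀ X, X ∈ L ↔ X ∈ LT (sumRep ρ)) (hLie : IsLie L) (hG : IsLie G) (hLG : L ≤ G)
    (hparts : ∀ X ∈ G, ∀ x i, X x i = X (Pi.single i (x i)) i) (hND : NonDeg L)
    (hlog : ∀ (τ : Γ) (d : ℕ), 2 ≤ d → (sumRep ρ τ - 1) ^ d = 0 → lgA d (sumRep ρ τ - 1) 1 ∈ L)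
    (i : ι) {r : ℕ} (g₀ : Γ) (z : Fin r → ℂ)
    (hz : ∀ j, End.HasEigenvalue ((ρ i g₀).baseChange ℂ) (z j))
    (hind : ∀ e : Fin r → ℤ, ∏ j, z j ^ e j = 1 → e = 0) {τ : Γ}
    (hτ : ∀ i, IsNilpotent (ρ i τ - 1))
    (hcen : finrank k (cen (G.map (blk i)) (ρ i τ)) ≤ r) : L.map (blk i) = G.map (blk i) := by
  have hLie' := isLie_block hLie (fun X hX => hparts X (hLG hX)) i
  have hG' := isLie_block hG hparts i
  obtain ⟨m, hm⟩ := sumRep_nil ρ hτ
  have hm2 : (sumRep ρ τ - 1) ^ (m + 2) = 0 := by rw [pow_add, hm, zero_mul]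
  set N := lgA (m + 2) (sumRep ρ τ - 1) 1 with hN
  have hNL : N ∈ L := hlog τ (m + 2) (by omega) hm2
  have hNnil : IsNilpotent N := lgA_one_nil m ⟨m, hm⟩
  obtain ⟨H, hH, f, hf, r1, r2, r3⟩ := h3.jm2 k _ L hLie hND N hNL hNnil
  have hpN := hparts N (hLG hNL)
  have hpH := hparts H (hLG hH)
  have hpf := hparts f (hLG hf)
  -- the logarithm of the block
  have hbl : ∀ (X : End k (∀ i, V i)) (hX : ∀ x i, X x i = X (Pi.single i (x i)) i) (a : ℕ),
      blk i (X ^ a) = (blk i X) ^ a := by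
    intro X hX a
    induction a with
    | zero => rw [pow_zero, pow_zero, blk_one]
    | succ a ih => rw [pow_succ', pow_succ', blk_mul hX, ih]
  have hν : ∀ x j, (sumRep ρ τ - 1) x j = (sumRep ρ τ - 1) (Pi.single j (x j)) j := by
    intro x j
    rw [LinearMap.sub_apply, LinearMap.sub_apply, Pi.sub_apply, Pi.sub_apply, sumRep_single,
      Pi.single_eq_same, Module.End.one_apply, Module.End.one_apply, Pi.single_eq_same]
    rfl
  have hbν : blk i (sumRep ρ τ - 1) = ρ i τ - 1 := by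
    rw [map_sub, blk_one]
    congr 1
    refine LinearMap.ext fun x => ?_
    rw [blk_apply, sumRep_single, Pi.single_eq_same]
  have hbN : blk i N = lgA (m + 2) (ρ i τ - 1) 1 := by
    rw [hN]
    unfold lgA
    rw [map_sum]
    refine Finset.sum_congr rfl fun a _ => ?_
    rw [map_smul, hbl _ hν, hbν]
  have hm3 : (ρ i τ - 1) ^ (m + 2) = 0 := by rw [← hbν, ← hbl _ hν, hm2, map_zero]
  have hbNnil : IsNilpotent (blk i N) := by
    obtain ⟨a, ha⟩ := hNnil
    exact ⟨a, by rw [← hbl N hpN, ha, map_zero]⟩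
  have hcenN : cen (G.map (blk i)) (blk i N) ≤ cen (G.map (blk i)) (ρ i τ) := by
    intro X hX
    obtain ⟨hXG, hXN⟩ := mem_cen.1 hX
    refine mem_cen.2 ⟨hXG, ?_⟩
    have h1 := (h.log1 k (V i) (ρ i τ - 1) (m + 2) (by omega) hm3).2 X (by
      rw [← hbN]
      exact hXN.symm)
    rw [mul_sub, sub_mul, mul_one, one_mul, sub_left_inj] at h1
    exact h1.symm
  -- the rank
  have hrank : r ≤ finrank k (cen (L.map (blk i)) (blk i N)) := by
    have hinj : Function.Injective ((ρ i g₀).baseChange ℂ) := injective_of_mul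
      (g' := (ρ i g₀⁻¹).baseChange ℂ) (by rw [← bc_mul, rho_inv_mul, bc_one])
    obtain ⟨θ', θ, p, hp⟩ := h.rd _ ((ρ i g₀).baseChange ℂ) hinj r z hz hind
    obtain ⟨h', hh'⟩ := exists_op ((ρ i g₀).baseChange ℂ) (fun z => ext0 θ' z)
    have hex : ∀ j, ∃ t : End ℂ (ℂ ⊗[k] V i), IsOp (θ j) ((ρ i g₀).baseChange ℂ) t := fun j =>
      exists_op ((ρ i g₀).baseChange ℂ) (fun z => ext0 (θ j) z)
    choose t ht using hex
    have h4 := h3.rank ℂ _ (bcS ℂ (L.map (blk i))) ((h.bc k ℂ _ (L.map (blk i))).2.1 hLie') h'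
      (op_mem_block ρ h hL g₀ i θ' h' hh') r p t
      (fun j => op_mem_block ρ h hL g₀ i (θ j) (t j) (ht j)) (hp h' t hh' ht)
      ((blk i N).baseChange ℂ) (mem_bcS (Submodule.mem_map_of_mem hNL))
    rwa [(h.bc k ℂ _ (L.map (blk i))).2.2.2.1 (blk i N)] at h4
  have hle : L.map (blk i) ≤ G.map (blk i) := Submodule.map_mono hLG
  have hcle : cen (L.map (blk i)) (blk i N) ≤ cen (G.map (blk i)) (blk i N) := by
    intro X hX
    exact mem_cen.2 ⟨hle (mem_cen.1 hX).1, (mem_cen.1 hX).2⟩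
  have hceq : cen (L.map (blk i)) (blk i N) = cen (G.map (blk i)) (blk i N) := by
    refine Submodule.eq_of_le_of_finrank_le hcle ?_
    exact ((Submodule.finrank_mono hcenN).trans hcen).trans hrank
  refine eq_of_triple h3.gen hG' hLie' hle (Submodule.mem_map_of_mem hNL)
    (Submodule.mem_map_of_mem hH) (Submodule.mem_map_of_mem hf) hbNnil ?_ ?_ ?_ ?_
  · rw [← blk_mul hpH, ← blk_mul hpN, ← map_sub, r1, map_nsmul]
  · rw [← blk_mul hpN, ← blk_mul hpf, ← map_sub, r2]
  · rw [← blk_mul hpH, ← blk_mul hpf, ← map_sub, r3, map_neg, map_nsmul]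
  · rw [← hceq]
    intro X hX
    exact (mem_cen.1 hX).1

/-- The Lie algebra is full if all blocks are full and it contains a maximal torus. -/
theorem full_of_blocks (h : Inputs) (h3 : Inputs3) {L G : Submodule k (End k (∀ i, V i))}
    (hLie : IsLie L) (hG : IsLie G) (hLG : L ≤ G) (hndG : NonDeg G)
    (hparts : ∀ X ∈ G, ∀ x i, X x i = X (Pi.single i (x i)) i)
    {t : Submodule ℂ (End ℂ (ℂ ⊗[k] (∀ i, V i)))} (htL : t ≤ bcS ℂ L)
    (hdiag : ∀ a ∈ t, ⨆ μ, End.eigenspace a μ = ⊤) (hcomm : ∀ a ∈ t, ∀ b ∈ t, a * b = b * a)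
    (hcen : ∀ x ∈ bcS ℂ G, (∀ a ∈ t, a * x = x * a) → x ∈ t)
    (hblk : ∀ i, L.map (blk i) = G.map (blk i)) : L = G := by
  refine (h.bc k ℂ _ G).2.2.2.2.1 L hLG ?_
  let e : ι → End k (∀ i, V i) := fun i => LinearMap.single k V i ∘ₗ LinearMap.proj i
  have he : ∀ i x, e i x = Pi.single i (x i) := fun i x => rfl
  have hcomme : ∀ i, ∀ X ∈ G, e i * X = X * e i := by
    intro i X hX
    refine LinearMap.ext fun x => funext fun l => ?_
    rw [Module.End.mul_apply, Module.End.mul_apply, he, he]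
    by_cases hl : l = i
    · subst hl
      rw [Pi.single_eq_same, hparts X hX]
    · rw [Pi.single_eq_of_ne hl, hparts X hX (Pi.single i (x i)) l, Pi.single_eq_of_ne hl,
        Pi.single_zero, map_zero]
      rfl
  refine h3.gour ℂ _ (bcS ℂ G) (bcS ℂ L) t ((h.bc k ℂ _ G).2.1 hG) ((h.bc k ℂ _ G).2.2.1 hndG)
    (bcS_mono hLG) ((h.bc k ℂ _ L).2.1 hLie) htL hdiag hcomm hcen ι
    (fun i => (e i).baseChange ℂ) ?_ ?_ ?_
  · have h1 : ∑ i, e i = 1 := by
      refine LinearMap.ext fun x => ?_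
      rw [LinearMap.sum_apply, Module.End.one_apply]
      simp only [he]
      exact Finset.univ_sum_single x
    have h2 := map_sum (LinearMap.baseChangeHom k ℂ (∀ i, V i) (∀ i, V i)) e Finset.univ
    rw [h1] at h2
    exact h2.symm.trans bc_one
  · intro i X hX
    exact (bcS_comm (L := G) (Y := e i) (fun X hX => (hcomme i X hX).symm) X hX).symm
  · intro i X hX
    induction hX using Submodule.span_induction with
    | mem X hX =>
      obtain ⟨X, hX, rfl⟩ := hX
      have h1 : blk i X ∈ L.map (blk i) := by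
        rw [hblk i]
        exact Submodule.mem_map_of_mem hX
      obtain ⟨Y, hY, hYX⟩ := h1
      refine ⟨Y.baseChange ℂ, mem_bcS hY, ?_⟩
      rw [← bc_mul, ← bc_mul]
      congr 1
      refine LinearMap.ext fun x => ?_
      rw [Module.End.mul_apply, Module.End.mul_apply, he, he, hparts Y (hLG hY),
        hparts X hX]
      congr 1
      exact LinearMap.congr_fun hYX (x i)
    | zero => exact ⟨0, Submodule.zero_mem _, rfl⟩
    | add X X' _ _ hX hX' =>
      obtain ⟨Y, hY, h1⟩ := hX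
      obtain ⟨Y', hY', h2⟩ := hX'
      exact ⟨Y + Y', Submodule.add_mem _ hY hY', by rw [mul_add, mul_add, h1, h2]⟩
    | smul c X _ hX =>
      obtain ⟨Y, hY, h1⟩ := hX
      exact ⟨c • Y, Submodule.smul_mem _ c hY, by rw [mul_smul_comm, mul_smul_comm, h1]⟩

end parts

end Pool.Agent.Y114.RM
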