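import Mathlib
import Pool.Agent.Y114.RM.Full

/-!
# Regular monodromy on a block
-/

set_option autoImplicit false
set_option linter.unusedSectionVars false
set_option linter.unusedVariables false

namespace Pool.Agent.Y114.RM

open NumberField IsDedekindDomain Module Polynomial TensorProduct Pool.Agent.TH118.SG
  Pool.Agent.Y114.MU Pool.Agent.Y114.TF Pool.Agent.Y114.GF Pool.Agent.H204R3.GP
open Pool.Agent.W569.FM Pool.Agent.W571.FM Pool.Agent.Y115.R Pool.Agent.Y115.T Pool.Agent.Y115.Chi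

section core

variable {k : Type} [Field k] [CharZero k] [Algebra k ℂ] {V : Type} [AddCommGroup V] [Module k V]
  [FiniteDimensional k V]

/-- The determinant of the adjoint representation at a place of regular monodromy. -/
theorem regular_core (h : Inputs) {L G : Submodule k (End k V)} (hLie : IsLie L)
    (hG : IsLie G) (hnd : NonDeg G) (hLG : L ≤ G) {g g' : End k V} (hgg : g * g' = 1)
    (hgg2 : g' * g = 1) (hAd : ∀ X ∈ L, AdE g g' X ∈ L)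
    (hop : ∀ (θ : Additive ℂˣ →+ ℂ) Y, IsOp θ (g.baseChange ℂ) Y → Y ∈ bcS ℂ L)
    {g₀ g₀' : End k V} (hg₀ : g₀' * g₀ = 1)
    (hop₀ : ∀ (θ : Additive ℂˣ →+ ℂ) Y, IsOp θ (g₀.baseChange ℂ) Y → Y ∈ bcS ℂ L)
    {r : ℕ} (z : Fin r → ℂ) (hz : ∀ i, End.HasEigenvalue (g₀.baseChange ℂ) (z i))
    (hind : ∀ e : Fin r → ℤ, ∏ i, z i ^ e i = 1 → e = 0)
    {N : End k V} (hNL : N ∈ L) (hNnil : IsNilpotent N) {q : ℕ} (hq : 2 ≤ q)
    (hNφ : g * N * g' = q • N) (hcenr : finrank k (cen G N) ≤ r) :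
    ∃ n : ℕ, ‖algebraMap k ℂ (detOn L (AdE g g') hAd)‖ ^ 2 = (q : ℝ) ^ n ∧ (n = 0 → L = G) := by
  -- the base change
  set gC : End ℂ (ℂ ⊗[k] V) := g.baseChange ℂ with hgC
  set g'C : End ℂ (ℂ ⊗[k] V) := g'.baseChange ℂ with hg'C
  set NC : End ℂ (ℂ ⊗[k] V) := N.baseChange ℂ with hNC
  have hgg' : gC * g'C = 1 := by rw [hgC, hg'C, ← bc_mul, hgg, bc_one]
  have hg'g : g'C * gC = 1 := by rw [hgC, hg'C, ← bc_mul, hgg2, bc_one]
  have hNCL : NC ∈ bcS ℂ L := mem_bcS hNL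
  have hNCnil : IsNilpotent NC := by
    obtain ⟨a, ha⟩ := hNnil
    refine ⟨a, ?_⟩
    have h1 : ∀ b : ℕ, NC ^ b = (N ^ b).baseChange ℂ := by
      intro b
      induction b with
      | zero => rw [pow_zero, pow_zero, bc_one]
      | succ b ih => rw [pow_succ, pow_succ, bc_mul, ih]
    rw [h1, ha, LinearMap.baseChange_zero]
  have hcenC : finrank ℂ (cen (bcS ℂ G) NC) ≤ r := by
    rw [(h.bc k ℂ V G).2.2.2.1 N]
    exact hcenr
  -- the operator `d`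
  obtain ⟨d, hd⟩ := exists_op gC (fun z => ext0 (lgq q) z)
  have hd' : IsOp (lgq q) gC d := hd
  have hdL : d ∈ bcS ℂ L := hop (lgq q) d hd'
  have hadd : IsOp (lgq q) (AdE gC g'C) (adE d) := h.ad ℂ _ (lgq q) gC g'C d hgg' hg'g hd'
  have hqC : (q : ℂ) ≠ 0 := Nat.cast_ne_zero.2 (by omega)
  have hqR : (1 : ℝ) < q := by exact_mod_cast (by omega : 1 < q)
  have hlogq : 0 < Real.log q := Real.log_pos hqR
  have hdN : d * NC - NC * d = NC := by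
    have h1 : AdE gC g'C NC = (q : ℂ) • NC := by
      rw [AdE_apply, hgC, hg'C, hNC, ← bc_mul, ← bc_mul, ← mul_assoc, hNφ, Nat.cast_smul_eq_nsmul]
      exact map_nsmul (LinearMap.baseChangeHom k ℂ V V) q N
    have h2 : NC ∈ (AdE gC g'C).maxGenEigenspace (q : ℂ) := by
      rw [mem_gen]
      refine ⟨1, ?_⟩
      rw [pow_one, LinearMap.sub_apply, Module.algebraMap_end_apply, h1, sub_self]
    have h3 := hadd (q : ℂ) NC h2
    rw [adE_apply, ext0_lgq hqC, Complex.norm_natCast, div_self hlogq.ne', Complex.ofReal_one,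
      one_smul] at h3
    exact h3
  have hss : ∀ X ∈ bcS ℂ G, adE d (adE d X) = 0 → adE d X = 0 := fun X _ =>
    h.ss ℂ _ (lgq q) (AdE gC g'C) (adE d) hadd X
  -- the rank
  have hinj₀ : Function.Injective (g₀.baseChange ℂ) := injective_of_mul
    (g' := g₀'.baseChange ℂ) (by rw [← bc_mul, hg₀, bc_one])
  obtain ⟨θ', θ, p, hp⟩ := h.rd _ (g₀.baseChange ℂ) hinj₀ r z hz hind
  obtain ⟨h', hh'⟩ := exists_op (g₀.baseChange ℂ) (fun z => ext0 θ' z)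
  have hex : ∀ j, ∃ t : End ℂ (ℂ ⊗[k] V), IsOp (θ j) (g₀.baseChange ℂ) t := fun j =>
    exists_op (g₀.baseChange ℂ) (fun z => ext0 (θ j) z)
  choose t ht using hex
  have hdet := hp h' t hh' ht
  have hLieC : IsLie (bcS ℂ L) := (h.bc k ℂ V L).2.1 hLie
  obtain ⟨n, hn1, hn2⟩ := h.fin ℂ _ (bcS ℂ G) (bcS ℂ L) ((h.bc k ℂ V G).2.1 hG)
    ((h.bc k ℂ V G).2.2.1 hnd) (bcS_mono hLG) hLieC h' (hop₀ θ' h' hh') r p t
    (fun j => hop₀ (θ j) (t j) (ht j)) hdet NC hNCL hNCnil hcenC d hdL hdN hss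
  refine ⟨n, ?_, fun h0 => (h.bc k ℂ V G).2.2.2.2.1 L hLG (hn2 h0)⟩
  -- the determinant
  have hAdC := AdE_bcS (C := ℂ) hAd
  have hinjA : Function.Injective (AdE gC g'C) := by
    apply injective_of_mul (g' := AdE g'C gC)
    refine LinearMap.ext fun X => ?_
    rw [Module.End.mul_apply, AdE_apply, AdE_apply, Module.End.one_apply, mul_assoc, mul_assoc,
      hg'g, mul_one, ← mul_assoc, hg'g, one_mul]
  have hinjR : Function.Injective ((AdE gC g'C).restrict hAdC) := by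
    intro x y hxy
    exact Subtype.ext (hinjA (congrArg Subtype.val hxy))
  have h1 := (h.res ℂ _ (lgq q) (AdE gC g'C) (adE d) hinjA hadd (bcS ℂ L)).2 hAdC
    (hLieC.adE_mem hdL)
  have h2 := h.tr ℂ _ (lgq q) _ _ hinjR h1
  set D : ℂ := algebraMap k ℂ (detOn L (AdE g g') hAd) with hD
  have h3 : LinearMap.det (M := bcS ℂ L) ((AdE gC g'C).restrict hAdC) = D :=
    (h.bc k ℂ V L).2.2.2.2.2 g g' hAd hAdC
  have hD0 : D ≠ 0 := by
    rw [← h3]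
    exact detOn_ne_zero _ _ hAdC hinjA
  rw [h3, ext0_lgq hD0] at h2
  rw [h2] at hn1
  have h4 : 2 * (Real.log ‖D‖ / Real.log q) = n := by exact_mod_cast hn1
  have h5 : Real.log (‖D‖ ^ 2) = Real.log ((q : ℝ) ^ n) := by
    rw [Real.log_pow, Real.log_pow, ← h4]
    field_simp
    norm_num
    ring
  exact Real.log_injOn_pos (by
    rw [Set.mem_Ioi]
    exact pow_pos (norm_pos_iff.2 hD0) 2) (by
    rw [Set.mem_Ioi]
    positivity) h5

end core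

section conj

variable {k : Type} [Field k] {V : Type} [AddCommGroup V] [Module k V] {W : Type} [AddCommGroup W]
  [Module k W]

theorem conj_AdE (u : V ≃ₗ[k] W) (g g' X : End k V) :
    AdE (u.conj g) (u.conj g') (u.conj X) = u.conj (AdE g g' X) := by
  rw [AdE_apply, AdE_apply]
  refine LinearMap.ext fun x => ?_
  simp [LinearEquiv.conj_apply]

theorem conj_stable (u : V ≃ₗ[k] W) {L : Submodule k (End k V)} {g g' : End k V}
    (h : ∀ X ∈ L, AdE g g' X ∈ L) :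
    ∀ X ∈ L.map (u.conj : End k V →ₗ[k] End k W), AdE (u.conj g) (u.conj g') X ∈
      L.map (u.conj : End k V →ₗ[k] End k W) := by
  rintro _ ⟨X, hX, rfl⟩
  exact ⟨AdE g g' X, h X hX, (conj_AdE u g g' X).symm⟩

theorem detOn_conj (u : V ≃ₗ[k] W) {L : Submodule k (End k V)} {g g' : End k V}
    (h : ∀ X ∈ L, AdE g g' X ∈ L)
    (h' : ∀ X ∈ L.map (u.conj : End k V →ₗ[k] End k W), AdE (u.conj g) (u.conj g') X ∈
      L.map (u.conj : End k V →ₗ[k] End k W)) :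
    detOn (L.map (u.conj : End k V →ₗ[k] End k W)) (AdE (u.conj g) (u.conj g')) h' =
      detOn L (AdE g g') h := by
  unfold detOn
  let e := u.conj.submoduleMap L
  rw [← LinearMap.det_conj ((AdE g g').restrict h) e]
  congr 1

end conj

section single

variable {ℓ : ℕ} [hℓ : Fact ℓ.Prime]

/-- The space of vectors, as a product over one index. -/
noncomputable def uu (ℓ : ℕ) [Fact ℓ.Prime] (m : ℕ) :
    (Fin m → ℚ_[ℓ]) ≃ₗ[ℚ_[ℓ]] (∀ _ : Unit, Fin m → ℚ_[ℓ]) :=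
  (LinearEquiv.funUnique Unit ℚ_[ℓ] (Fin m → ℚ_[ℓ])).symm

theorem uu_apply (m : ℕ) (x : Fin m → ℚ_[ℓ]) (i : Unit) : uu ℓ m x i = x := rfl

theorem uu_conj_apply (m : ℕ) (g : End ℚ_[ℓ] (Fin m → ℚ_[ℓ])) (x : ∀ _ : Unit, Fin m → ℚ_[ℓ])
    (i : Unit) : (uu ℓ m).conj g x i = g (x i) := rfl

theorem sumRep_unit {Γ : Type} [Group Γ] (m : ℕ) (ρ : Representation ℚ_[ℓ] Γ (Fin m → ℚ_[ℓ]))
    (γ : Γ) : sumRep (fun _ : Unit => ρ) γ = (uu ℓ m).conj (ρ γ) := by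
  refine LinearMap.ext fun x => funext fun i => ?_
  rw [uu_conj_apply]
  rfl

theorem cont1 (h : Inputs) {Γ : Type} [Group Γ] [TopologicalSpace Γ] [IsTopologicalGroup Γ]
    {m : ℕ} (ρ : Representation ℚ_[ℓ] Γ (Fin m → ℚ_[ℓ]))
    (hρ : Continuous fun g => LinearMap.toMatrix' (ρ g))
    (L : Submodule ℚ_[ℓ] (End ℚ_[ℓ] (Fin m → ℚ_[ℓ])))
    (hL : ∀ γ : Γ, ∀ X ∈ L, AdE (ρ γ) (ρ γ⁻¹) X ∈ L) :
    ∃ ψ : Γ →* ℚ_[ℓ]ˣ, Continuous ψ ∧ ∀ γ, (ψ γ : ℚ_[ℓ]) = detOn L (AdE (ρ γ) (ρ γ⁻¹)) (hL γ) := by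
  obtain ⟨ψ, hψ, h1⟩ := h.cont ℓ Unit (fun _ => m) Γ (fun _ => ρ) (fun _ => hρ)
    (L.map ((uu ℓ m).conj : End ℚ_[ℓ] (Fin m → ℚ_[ℓ]) →ₗ[ℚ_[ℓ]] _)) (by
      intro γ X hX
      rw [sumRep_unit, sumRep_unit]
      exact conj_stable (uu ℓ m) (hL γ) X hX)
  refine ⟨ψ, hψ, fun γ => ?_⟩
  rw [h1, ← detOn_conj (uu ℓ m) (hL γ) (conj_stable (uu ℓ m) (hL γ))]
  congr 1

theorem adw1 (h : Inputs) (j : ℚ_[ℓ] →+* ℂ) {m : ℕ} {g g' : End ℚ_[ℓ] (Fin m → ℚ_[ℓ])}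
    {P : ℚ[X]} {c : ℝ} (hgg : g * g' = 1) (hgg2 : g' * g = 1)
    (hP : g.charpoly = P.map (algebraMap ℚ ℚ_[ℓ])) (hc : ∀ a ∈ P.aroots ℂ, ‖a‖ ^ 2 = c)
    (L : Submodule ℚ_[ℓ] (End ℚ_[ℓ] (Fin m → ℚ_[ℓ]))) (hL : ∀ X ∈ L, AdE g g' X ∈ L) :
    IsAlgebraic ℚ (detOn L (AdE g g') hL) ∧ ‖j (detOn L (AdE g g') hL)‖ = 1 := by
  have h1 : (uu ℓ m).conj g * (uu ℓ m).conj g' = 1 := by
    refine LinearMap.ext fun x => funext fun i => ?_
    rw [Module.End.mul_apply, uu_conj_apply, uu_conj_apply, ← Module.End.mul_apply, hgg]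
    rfl
  have h2 : (uu ℓ m).conj g' * (uu ℓ m).conj g = 1 := by
    refine LinearMap.ext fun x => funext fun i => ?_
    rw [Module.End.mul_apply, uu_conj_apply, uu_conj_apply, ← Module.End.mul_apply, hgg2]
    rfl
  have h3 := h.adw ℓ j Unit (fun _ => m) ((uu ℓ m).conj g) ((uu ℓ m).conj g') (fun _ => g)
    (fun _ => P) (fun _ => c) h1 h2 (fun x i => uu_conj_apply m g x i) (fun _ => hP)
    (fun _ => hc) (L.map ((uu ℓ m).conj : End ℚ_[ℓ] (Fin m → ℚ_[ℓ]) →ₗ[ℚ_[ℓ]] _)) (by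
      rintro _ ⟨X, hX, rfl⟩ x i
      change X (x i) = X ((Pi.single i (x i) : ∀ _ : Unit, Fin m → ℚ_[ℓ]) i)
      rw [Pi.single_eq_same]) (conj_stable (uu ℓ m) hL)
  rwa [detOn_conj (uu ℓ m) hL (conj_stable (uu ℓ m) hL)] at h3

end single

end Pool.Agent.Y114.RM
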