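import Mathlib
import Pool.Agent.Y114.RM.Core

/-!
# Regular monodromy for all summands
-/

set_option autoImplicit false
set_option linter.unusedSectionVars false
set_option linter.unusedVariables false

namespace Pool.Agent.Y114.RM

open NumberField IsDedekindDomain Module Polynomial TensorProduct Pool.Agent.TH118.SG
  Pool.Agent.Y114.MU Pool.Agent.Y114.TF Pool.Agent.Y114.GF Pool.Agent.H204R3.GP
open Pool.Agent.W569.FM Pool.Agent.W571.FM Pool.Agent.Y115.R Pool.Agent.Y115.T Pool.Agent.Y115.Chi

section logs

variable {k : Type} [Field k] [CharZero k] {V : Type} [AddCommGroup V] [Module k V]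

/-- The logarithm of a power of a unipotent endomorphism. -/
theorem comm_pow_unip (hlog1 : S_LOG1) {u : End k V} {d e : ℕ} (hd : 2 ≤ d) (hu : (u - 1) ^ d = 0)
    (he : 0 < e) {X : End k V} (hX : X * lgA d (u ^ e - 1) 1 = lgA d (u ^ e - 1) 1 * X)
    (hu' : (u ^ e - 1) ^ d = 0) : X * u ^ e = u ^ e * X := by
  have h1 := (hlog1 k V (u ^ e - 1) d hd hu').2 X hX
  rwa [mul_sub, sub_mul, mul_one, one_mul, sub_left_inj] at h1

/-- An endomorphism which commutes with a positive power of a unipotent endomorphism commutes with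
it. -/
theorem comm_of_pow (hlog1 : S_LOG1) (hlog3 : S_LOG3) {u : End k V} (hu : IsNilpotent (u - 1))
    {e : ℕ} (he : 0 < e) {X : End k V} (hX : X * u ^ e = u ^ e * X) : X * u = u * X := by
  obtain ⟨m, hm⟩ := hu
  -- the conjugation is unipotent on endomorphisms: use the graph of `X`
  let U : End k (V × V) := u.prodMap u
  have hU : (U - 1) ^ (m + 2) = 0 := by
    have h1 : ∀ a : ℕ, (U - 1) ^ a = ((u - 1) ^ a).prodMap ((u - 1) ^ a) := by
      intro a
      induction a with
      | zero => rfl
      | succ a ih =>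
        rw [pow_succ, pow_succ, ih]
        refine LinearMap.ext fun x => ?_
        rfl
    rw [h1, pow_add, hm, zero_mul]
    rfl
  let W : Submodule k (V × V) := LinearMap.graph X
  have hW : ∀ x ∈ W, (U ^ e) x ∈ W := by
    intro x hx
    rw [LinearMap.mem_graph_iff] at hx ⊢
    have h1 : ∀ a : ℕ, U ^ a = (u ^ a).prodMap (u ^ a) := by
      intro a
      induction a with
      | zero => rfl
      | succ a ih =>
        rw [pow_succ, pow_succ, ih]
        refine LinearMap.ext fun x => ?_
        rfl
    rw [h1]
    change (u ^ e) x.2 = X ((u ^ e) x.1)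
    rw [hx, ← Module.End.mul_apply, ← hX]
    rfl
  have h2 := hlog3 k (V × V) (U - 1) (m + 2) e (by omega) hU he W (by
    rw [add_sub_cancel]
    exact hW)
  -- all coefficients are polynomials in the logarithm
  have h3 := (hlog1 k (V × V) (U - 1) (m + 2) (by omega) hU).1
  have h4 : ∀ A ∈ Algebra.adjoin k {lgA (m + 2) (U - 1) 1}, ∀ x ∈ W, A x ∈ W := by
    intro A hA
    induction hA using Algebra.adjoin_induction with
    | mem A hA =>
      rw [Set.mem_singleton_iff.1 hA]
      exact h2
    | algebraMap c => intro x hx; exact W.smul_mem c hx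
    | add A B _ _ hA hB => intro x hx; exact W.add_mem (hA x hx) (hB x hx)
    | mul A B _ _ hA hB => intro x hx; exact hA _ (hB x hx)
  have h5 : ∀ x ∈ W, U x ∈ W := by
    have h6 := lgA_pow hU 1
    rw [add_sub_cancel, pow_one] at h6
    intro x hx
    rw [h6, LinearMap.sum_apply]
    refine W.sum_mem fun i _ => ?_
    rw [LinearMap.smul_apply]
    exact W.smul_mem _ (h4 _ (h3 i) x hx)
  refine LinearMap.ext fun x => ?_
  have h6 := h5 (x, X x) (by rw [LinearMap.mem_graph_iff])
  rw [LinearMap.mem_graph_iff] at h6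
  exact h6.symm

end logs

end Pool.Agent.Y114.RM
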