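import Mathlib
import Pool.Agent.Y114.RM.Main2

/-!
# Regular monodromy for all summands: the main theorem
-/

set_option autoImplicit false
set_option linter.unusedSectionVars false
set_option linter.unusedVariables false

namespace Pool.Agent.Y114.RM

open NumberField IsDedekindDomain Module Polynomial TensorProduct Pool.Agent.TH118.SG
  Pool.Agent.Y114.MU Pool.Agent.Y114.TF Pool.Agent.Y114.GF Pool.Agent.H204R3.GP
open Pool.Agent.W569.FM Pool.Agent.W571.FM Pool.Agent.Y115.R Pool.Agent.Y115.T Pool.Agent.Y115.Chi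

variable {F : Type} [Field F] [NumberField F] {ι : Type} [Fintype ι] [DecidableEq ι] {n : ι → ℕ}
  {w : ι → ℤ} {ℓ : ℕ} [hℓ : Fact ℓ.Prime]
  (ρ : ∀ i, Representation ℚ_[ℓ] Gal(AlgebraicClosure F/F) (Fin (n i) → ℚ_[ℓ]))

/-- Good reduction of the `i`-th summand at `v`. -/
def GoodPart (w : ℤ) (i : ι) (v : HeightOneSpectrum (𝓞 F)) : Prop :=
  ∃ P : ℚ[X], (∀ a ∈ P.aroots ℂ, ‖a‖ ^ 2 = (q v : ℝ) ^ w) ∧ ∀ Q, PrimeOver Q v → ∀ g,
    (InInertiaAt Q g → ρ i g = 1) ∧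
      (IsFrobAt Q (q v) g → (ρ i g⁻¹).charpoly = P.map (algebraMap ℚ ℚ_[ℓ]))

/-- Regular monodromy of the `i`-th summand at `v`: at all `Q` above `v` the inertia group acts
unipotently on the `i`-th summand and contains an element `τ` whose centralizer in the `i`-th block of
`𝔤` has at most the dimension `r`, such that `φ τ φ⁻¹` acts as `τ ^ q` on the `i`-th summand for all
(arithmetic) Frobenius elements `φ`; powers of `τ` act unipotently on the other summands. -/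
def RegularPart (𝔤 : Submodule ℚ_[ℓ] (End ℚ_[ℓ] (∀ i, Fin (n i) → ℚ_[ℓ]))) (i : ι) (r : ℕ)
    (v : HeightOneSpectrum (𝓞 F)) : Prop :=
  ∀ Q, PrimeOver Q v → (∀ g, InInertiaAt Q g → IsNilpotent (ρ i g - 1)) ∧
    ∃ τ, InInertiaAt Q τ ∧ finrank ℚ_[ℓ] (cen (𝔤.map (blk i)) (ρ i τ)) ≤ r ∧
      (∀ φ, IsFrobAt Q (q v) φ → ρ i (φ * τ * φ⁻¹) = ρ i (τ ^ q v)) ∧
      ∀ j, ∃ e : ℕ, 0 < e ∧ IsNilpotent (ρ j (τ ^ e) - 1)

theorem block_main (h : Inputs) (hlog3 : S_LOG3)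
    (hρ : ∀ i, Continuous fun g => LinearMap.toMatrix' (ρ i g))
    (𝔤 L : Submodule ℚ_[ℓ] (End ℚ_[ℓ] (∀ i, Fin (n i) → ℚ_[ℓ]))) (hG : IsLie 𝔤)
    (hparts : ∀ X ∈ 𝔤, ∀ x i, X x i = X (Pi.single i (x i)) i)
    (hL : ∀ X, X ∈ L ↔ X ∈ LT (sumRep ρ)) (hLie : IsLie L)
    (hAd : ∀ γ, ∀ X ∈ L, AdE (sumRep ρ γ) (sumRep ρ γ⁻¹) X ∈ L)
    (hlog : ∀ (τ : GF F) (d : ℕ), 2 ≤ d → (sumRep ρ τ - 1) ^ d = 0 →
      lgA d (sumRep ρ τ - 1) 1 ∈ L) (hLG : L ≤ 𝔤)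
    (i : ι) (hnd : NonDeg (𝔤.map (blk i)))
    (T : Set ℕ) (hT3 : 3 ≤ T.encard) (hT : ∀ p ∈ T, p.Prime ∧ p ≠ ℓ ∧ UnramifiedIn F p)
    (hgood : ∀ p ∈ T, ∀ v, Above v p → GoodPart ρ (w i) i v)
    (r : ℕ) {v₀ : HeightOneSpectrum (𝓞 F)} {P₀ : ℚ[X]}
    (h₀ : ∀ Q, PrimeOver Q v₀ → ∀ g, IsFrobAt Q (q v₀) g →
      (ρ i g⁻¹).charpoly = P₀.map (algebraMap ℚ ℚ_[ℓ]))
    (hr : IndependentRoots r (fun _ : Unit => P₀)) {p₁ : ℕ}
    (hp₁ : p₁.Prime ∧ p₁ ≠ ℓ ∧ UnramifiedIn F p₁) {v₁ : HeightOneSpectrum (𝓞 F)}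
    (hv₁ : Above v₁ p₁) (hreg : RegularPart ρ 𝔤 i r v₁)
    (hall : ∀ v, Above v p₁ → RegularPart ρ 𝔤 i r v ∨ GoodPart ρ (w i) i v) :
    L.map (blk i) = 𝔤.map (blk i) := by
  classical
  obtain ⟨j, hj⟩ := exists_j ℓ ℚ_[ℓ] ℚ (algebraMap ℚ ℚ_[ℓ]) (algebraMap ℚ ℂ)
  let _ : Algebra ℚ_[ℓ] ℂ := j.toAlgebra
  have hjalg : ∀ x : ℚ_[ℓ], algebraMap ℚ_[ℓ] ℂ x = j x := fun _ => rfl
  set Li := L.map (blk i) with hLi
  set Gi := 𝔤.map (blk i) with hGi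
  have hLieI : IsLie Li := isLie_block hLie (fun X hX => hparts X (hLG hX)) i
  have hGI : IsLie Gi := isLie_block hG hparts i
  have hle : Li ≤ Gi := Submodule.map_mono hLG
  have hsum : ∀ (γ : GF F) x l, sumRep ρ γ x l = sumRep ρ γ (Pi.single l (x l)) l := by
    intro γ x l
    rw [sumRep_single, Pi.single_eq_same]
    rfl
  have hbρ : ∀ γ : GF F, blk i (sumRep ρ γ) = ρ i γ := by
    intro γ
    refine LinearMap.ext fun x => ?_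
    rw [blk_apply, sumRep_single, Pi.single_eq_same]
  have hAdI : ∀ γ, ∀ X ∈ Li, AdE (ρ i γ) (ρ i γ⁻¹) X ∈ Li := by
    rintro γ _ ⟨X, hX, rfl⟩
    refine ⟨AdE (sumRep ρ γ) (sumRep ρ γ⁻¹) X, hAd γ X hX, ?_⟩
    rw [AdE_apply, AdE_apply, blk_mul (hsum γ), blk_mul (hparts X (hLG hX)), hbρ, hbρ]
  obtain ⟨ψ, hψc, hψ⟩ := cont1 h (ρ i) (hρ i) Li hAdI
  -- Frobenius elements
  have hfr₀ : ∀ v : HeightOneSpectrum (𝓞 F), ∃ (Q : Ideal (OO F)) (σ : GF F), Q.IsMaximal ∧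
      cm Q = v.asIdeal ∧ FrobAt (Ideal.absNorm v.asIdeal) Q σ := fun v => frob_cm v
  choose Q₀ σ₀ hQ₀ hQ₀v hσ₀ using hfr₀
  -- places of good reduction
  have hgoodin : ∀ v : HeightOneSpectrum (𝓞 F), GoodPart ρ (w i) i v →
      (∀ Q : Ideal (OO F), Q.IsPrime → cm Q = v.asIdeal → ∀ g, InInertia Q g → ψ g = 1) ∧
      IsAlgebraic ℚ (ψ (σ₀ v) : ℚ_[ℓ]) ∧ ‖j (ψ (σ₀ v) : ℚ_[ℓ])‖ ^ 2 =
        (Ideal.absNorm v.asIdeal : ℝ) ^ (0 : ℤ) := by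
    rintro v ⟨P', hpure, hP'⟩
    refine ⟨fun Q hQ hQv g hg => ?_, ?_⟩
    · apply Units.ext
      rw [hψ, Units.val_one]
      have h1 : ρ i g = 1 := (hP' Q ⟨hQ, hQv⟩ g).1 hg
      have h2 : ρ i g⁻¹ = 1 := by
        have h3 := rho_mul_inv (ρ i) g
        rwa [h1, one_mul] at h3
      have h3 : ∀ (a b : End ℚ_[ℓ] (Fin (n i) → ℚ_[ℓ])) (hab : ∀ X ∈ Li, AdE a b X ∈ Li),
          a = 1 → b = 1 → detOn Li (AdE a b) hab = 1 := by
        rintro a b hab rfl rfl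
        exact detOn_one hab
      exact h3 _ _ _ h1 h2
    · obtain ⟨h1, h2⟩ := adw1 h j (rho_mul_inv (ρ i) (σ₀ v)⁻¹) (rho_inv_mul (ρ i) (σ₀ v)⁻¹)
        ((hP' (Q₀ v) ⟨(hQ₀ v).isPrime, hQ₀v v⟩ (σ₀ v)).2 (hσ₀ v)) hpure Li (hAdI _)
      rw [← hψ] at h1 h2
      have h4 : (ψ (σ₀ v)⁻¹ : ℚ_[ℓ]) = (ψ (σ₀ v) : ℚ_[ℓ])⁻¹ := by
        rw [map_inv, Units.val_inv_eq_inv_val]
      rw [h4] at h1 h2
      refine ⟨IsAlgebraic.inv_iff.1 h1, ?_⟩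
      rw [map_inv₀, norm_inv, inv_eq_one] at h2
      rw [h2, one_pow, zpow_zero]
  -- rank data
  obtain ⟨z, hz, hind⟩ := hr
  have hz' : ∀ a, End.HasEigenvalue ((ρ i (σ₀ v₀)⁻¹).baseChange ℂ) (z a) := by
    intro a
    obtain ⟨_, ha⟩ := hz a
    exact part_eigen ρ (σ₀ v₀)⁻¹ (h₀ (Q₀ v₀) ⟨(hQ₀ v₀).isPrime, hQ₀v v₀⟩ (σ₀ v₀) (hσ₀ v₀)) ha
  -- places of regular monodromy
  have hregin : ∀ v : HeightOneSpectrum (𝓞 F), RegularPart ρ 𝔤 i r v →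
      (∀ Q : Ideal (OO F), Q.IsPrime → cm Q = v.asIdeal → ∀ g, InInertia Q g → ψ g = 1) ∧
      ∃ nv : ℕ, ‖j (ψ (σ₀ v) : ℚ_[ℓ])‖ ^ 2 = (Ideal.absNorm v.asIdeal : ℝ) ^ (nv : ℤ) ∧
        (nv = 0 → Li = Gi) := by
    intro v hv
    refine ⟨fun Q hQ hQv g hg => ?_, ?_⟩
    · apply Units.ext
      rw [hψ, Units.val_one]
      exact detOn_unip (rho_mul_inv _ _) ((hv Q ⟨hQ, hQv⟩).1 g hg) _
    · obtain ⟨hun, τ, hτ, hcen, hφ, hpot⟩ := hv (Q₀ v) ⟨(hQ₀ v).isPrime, hQ₀v v⟩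
      have hφ' := hφ (σ₀ v) (hσ₀ v)
      have hτi := hun τ hτ
      choose e he hen using hpot
      have hE : 0 < ∏ l, e l := Finset.prod_pos fun l _ => he l
      have hτE : ∀ l, IsNilpotent (ρ l (τ ^ ∏ l, e l) - 1) := by
        intro l
        obtain ⟨c, hc⟩ : ∃ c, ∏ l, e l = e l * c := Finset.dvd_prod_of_mem e (Finset.mem_univ l)
        obtain ⟨m, hm⟩ := hen l
        refine ⟨m, ?_⟩
        rw [hc, pow_mul, map_pow]
        have h6 : ρ l (τ ^ e l) ^ c - 1 = (ρ l (τ ^ e l) - 1) *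
            ∑ a ∈ Finset.range c, ρ l (τ ^ e l) ^ a := (mul_geom_sum _ c).symm
        have h7 : Commute (ρ l (τ ^ e l) - 1) (∑ a ∈ Finset.range c, ρ l (τ ^ e l) ^ a) := by
          refine Commute.sum_right _ _ _ fun a _ => ?_
          exact ((Commute.refl _).pow_right a).sub_left (Commute.one_left _)
        rw [h6, h7.mul_pow, hm, zero_mul]
      set E := ∏ l, e l with hEdef
      obtain ⟨m, hm⟩ := sumRep_nil ρ hτE
      have hm2 : (sumRep ρ (τ ^ E) - 1) ^ (m + 2) = 0 := by rw [pow_add, hm, zero_mul]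
      have hNL := hlog (τ ^ E) (m + 2) (by omega) hm2
      -- the block of the logarithm
      have hν : ∀ x l, (sumRep ρ (τ ^ E) - 1) x l =
          (sumRep ρ (τ ^ E) - 1) (Pi.single l (x l)) l := by
        intro x l
        rw [LinearMap.sub_apply, LinearMap.sub_apply, Pi.sub_apply, Pi.sub_apply, hsum,
          Module.End.one_apply, Module.End.one_apply, Pi.single_eq_same]
      have hbpow : ∀ a : ℕ, blk i ((sumRep ρ (τ ^ E) - 1) ^ a) = (ρ i (τ ^ E) - 1) ^ a := by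
        intro a
        induction a with
        | zero => rw [pow_zero, pow_zero, blk_one]
        | succ a ih => rw [pow_succ', pow_succ', blk_mul hν, ih, map_sub, blk_one, hbρ]
      have hbN : blk i (lgA (m + 2) (sumRep ρ (τ ^ E) - 1) 1) =
          lgA (m + 2) (ρ i (τ ^ E) - 1) 1 := by
        unfold lgA
        rw [map_sum]
        refine Finset.sum_congr rfl fun a _ => ?_
        rw [map_smul, hbpow]
      have hmi : (ρ i (τ ^ E) - 1) ^ (m + 2) = 0 := by rw [← hbpow, hm2, map_zero]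
      have hNLi : lgA (m + 2) (ρ i (τ ^ E) - 1) 1 ∈ Li := by
        rw [← hbN]
        exact Submodule.mem_map_of_mem hNL
      have hcenN : cen Gi (lgA (m + 2) (ρ i (τ ^ E) - 1) 1) ≤ cen Gi (ρ i τ) := by
        intro X hX
        obtain ⟨hXG, hXN⟩ := mem_cen.1 hX
        refine mem_cen.2 ⟨hXG, ?_⟩
        have h1 := (h.log1 ℚ_[ℓ] _ (ρ i (τ ^ E) - 1) (m + 2) (by omega) hmi).2 X hXN.symm
        rw [mul_sub, sub_mul, mul_one, one_mul, sub_left_inj, map_pow] at h1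
        exact (comm_of_pow h.log1 hlog3 hτi hE h1).symm
      have hrel : ρ i (σ₀ v) * lgA (m + 2) (ρ i (τ ^ E) - 1) 1 * ρ i (σ₀ v)⁻¹ =
          q v • lgA (m + 2) (ρ i (τ ^ E) - 1) 1 := by
        refine h.log2 ℚ_[ℓ] _ (ρ i (τ ^ E) - 1) (ρ i (σ₀ v)) (ρ i (σ₀ v)⁻¹) (m + 2) (q v)
          (by omega) hmi (rho_mul_inv _ _) (rho_inv_mul _ _) ?_
        rw [add_sub_cancel, ← map_mul, ← map_mul]
        have h1 : σ₀ v * τ ^ E * (σ₀ v)⁻¹ = (σ₀ v * τ * (σ₀ v)⁻¹) ^ E := by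
          rw [conj_pow]
        rw [h1, map_pow, hφ', ← map_pow, ← map_pow, ← pow_mul, ← pow_mul, mul_comm]
      obtain ⟨nv, h1, h2⟩ := regular_core h hLieI hGI hnd hle (rho_mul_inv (ρ i) (σ₀ v))
        (rho_inv_mul (ρ i) (σ₀ v)) (hAdI (σ₀ v))
        (fun θ Y hY => op_mem_block ρ h hL (σ₀ v) i θ Y hY) (rho_inv_mul (ρ i) (σ₀ v₀)⁻¹)
        (fun θ Y hY => op_mem_block ρ h hL (σ₀ v₀)⁻¹ i θ Y hY) z hz' hind hNLi
        (lgA_one_nil m ⟨m + 2, hmi⟩) (two_le_q v) hrel ((Submodule.finrank_mono hcenN).trans hcen)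
      refine ⟨nv, ?_, h2⟩
      rw [← hψ, hjalg] at h1
      rw [h1, zpow_natCast]
      rfl
  -- the weights
  set nn : HeightOneSpectrum (𝓞 F) → ℤ := fun v =>
    if hv : RegularPart ρ 𝔤 i r v then ((hregin v hv).2.choose : ℤ) else 0 with hnn
  have key := two_weights ψ hψc T hT3 hT hp₁ (fun v => ψ (σ₀ v)) (by
    intro p hp v hv Q hQ hQv
    have hin : ∀ Q : Ideal (OO F), Q.IsPrime → cm Q = v.asIdeal → ∀ g, InInertia Q g →
        ψ g = 1 := by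
      rcases hp with h | rfl
      · exact (hgoodin v (hgood p h v hv)).1
      · rcases hall v hv with h | h
        · exact (hregin v h).1
        · exact (hgoodin v h).1
    exact ⟨hin Q hQ hQv, fun φ hφ => frob_value ψ v hin (hQ₀ v).isPrime hQ (hQ₀v v) hQv (hσ₀ v) hφ⟩)
    (fun p hp v hv => (hgoodin v (hgood p hp v hv)).2.1) j 0
    (fun p hp v hv => (hgoodin v (hgood p hp v hv)).2.2) nn (by
      intro v hv
      rw [hnn]
      beta_reduce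
      split_ifs with hc
      · exact (hregin v hc).2.choose_spec.1
      · exact (hgoodin v ((hall v hv).resolve_left hc)).2.2) (by
      intro v hv
      rw [hnn]
      beta_reduce
      split_ifs with hc
      · exact Int.natCast_nonneg _
      · exact le_rfl) v₁ hv₁
  rw [hnn] at key
  beta_reduce at key
  rw [dif_pos hreg] at key
  exact (hregin v₁ hreg).2.choose_spec.2 (by exact_mod_cast key)

/-- **Regular monodromy of all summands.** -/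
theorem main3 (h : Inputs) (hlog3 : S_LOG3) (hjord : S_JORD) (hcartan : S_CARTAN) (h3 : Inputs3)
    (hρ : ∀ i, Continuous fun g => LinearMap.toMatrix' (ρ i g))
    (𝔤 : Submodule ℚ_[ℓ] (End ℚ_[ℓ] (∀ i, Fin (n i) → ℚ_[ℓ]))) (h𝔤 : IsMotivic ρ 𝔤)
    (hnd : ∀ i, NonDeg (𝔤.map (blk i)))
    (T : Set ℕ) (hT3 : 3 ≤ T.encard) (hT : ∀ p ∈ T, p.Prime ∧ p ≠ ℓ ∧ UnramifiedIn F p)
    (hgood : ∀ p ∈ T, ∀ v, Above v p → ∃ P, GoodPlace ρ w v P)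
    {v₀ : HeightOneSpectrum (𝓞 F)} {P₀ : ι → ℚ[X]} (h₀ : GoodPlace ρ w v₀ P₀)
    (r₀ : ℕ) (hr₀ : IndependentRoots r₀ P₀)
    (hrk : RankAtMost 𝔤 r₀)
    (r : ι → ℕ) (hr : ∀ i, IndependentRoots (r i) (fun _ : Unit => P₀ i))
    (hreg : ∀ i, ∃ p, p.Prime ∧ p ≠ ℓ ∧ UnramifiedIn F p ∧
      (∀ v, Above v p → RegularPart ρ 𝔤 i (r i) v ∨ GoodPart ρ (w i) i v) ∧
      ∃ v, Above v p ∧ RegularPart ρ 𝔤 i (r i) v) :
    FiniteIndexSemisimple (sumRep ρ) ∧ ∀ (m : ℕ) (φ : Tensor ℚ_[ℓ] (∀ i, Fin (n i) → ℚ_[ℓ]) m),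
      TateTensor (sumRep ρ) φ → ∀ X ∈ 𝔤, KillsTensor X φ := by
  classical
  obtain ⟨j, hj⟩ := exists_j ℓ ℚ_[ℓ] ℚ (algebraMap ℚ ℚ_[ℓ]) (algebraMap ℚ ℂ)
  let _ : Algebra ℚ_[ℓ] ℂ := j.toAlgebra
  obtain ⟨L, hL, hLie, hAd, hlog⟩ := h.lie ℚ_[ℓ] (∀ i, Fin (n i) → ℚ_[ℓ]) _ (sumRep ρ)
  have hLG : L ≤ 𝔤 := fun X hX => h𝔤.algebraic X fun m φ hφ => ((hL X).1 hX).2 m φ (h𝔤.tate m φ hφ)
  -- the conclusion follows from `L = 𝔤`
  suffices hfin : L = 𝔤 by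
    refine ⟨h.concl _ ι _ _ ρ 𝔤 h𝔤 fun X hX => (hL X).1 (hfin ▸ hX), fun m φ hφ X hX => ?_⟩
    exact ((hL X).1 (hfin ▸ hX)).2 m φ hφ
  have hblocks : ∀ i, L.map (blk i) = 𝔤.map (blk i) := by
    intro i
    obtain ⟨p, hp, hpℓ, hpu, hall, v₁, hv₁, hreg₁⟩ := hreg i
    exact block_main ρ h hlog3 hρ 𝔤 L h𝔤.bracket h𝔤.parts hL hLie hAd hlog hLG i (hnd i) T hT3 hT
      (fun p hp v hv => by
        obtain ⟨P, hP⟩ := hgood p hp v hv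
        exact ⟨P i, hP.pure i, fun Q hQ g => ⟨hP.unramified i Q hQ g, hP.frobenius i Q hQ g⟩⟩)
      (r i) (h₀.frobenius i) (hr i) ⟨hp, hpℓ, hpu⟩ hv₁ hreg₁ hall
  by_cases hne : ∃ i j : ι, i ≠ j
  · obtain ⟨Q₀, σ₀, hQ₀, hQ₀v, hσ₀⟩ : ∃ (Q : Ideal (OO F)) (σ : GF F), Q.IsMaximal ∧
      cm Q = v₀.asIdeal ∧ FrobAt (Ideal.absNorm v₀.asIdeal) Q σ := frob_cm v₀
    obtain ⟨z, hz, hind⟩ := hr₀
    have hz' : ∀ i, End.HasEigenvalue ((sumRep ρ σ₀⁻¹).baseChange ℂ) (z i) := by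
      intro i
      obtain ⟨a, ha⟩ := hz i
      exact sumRep_eigen ρ σ₀⁻¹ (h₀.frobenius a Q₀ ⟨hQ₀.isPrime, hQ₀v⟩ σ₀ hσ₀) ha
    have hcen := torus_cen (sumRep ρ) h hjord hcartan hL hLG h𝔤.bracket h𝔤.nondeg h𝔤.algebraic
      hrk σ₀⁻¹ z hz' hind
    exact full_of_blocks h h3 hLie h𝔤.bracket hLG h𝔤.nondeg h𝔤.parts
      (tor_le (sumRep ρ) h hL σ₀⁻¹) (tor_diag _) (tor_comm _) hcen hblocks
  · push Not at hne
    refine le_antisymm hLG fun X hX => ?_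
    by_cases hι : Nonempty ι
    · obtain ⟨i⟩ := hι
      have h1 : blk i X ∈ L.map (blk i) := by
        rw [hblocks i]
        exact Submodule.mem_map_of_mem hX
      obtain ⟨Y, hY, hYX⟩ := h1
      have h2 : Y = X := by
        refine LinearMap.ext fun x => funext fun l => ?_
        rw [hne l i, h𝔤.parts Y (hLG hY), h𝔤.parts X hX]
        exact LinearMap.congr_fun hYX (x i)
      rwa [← h2]
    · have h2 : X = 0 := by
        refine LinearMap.ext fun x => funext fun l => ?_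
        exact absurd ⟨l⟩ hι
      rw [h2]
      exact L.zero_mem

end Pool.Agent.Y114.RM
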