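import Mathlib
import Pool.Agent.Y114.RM.Full

/-!
# Maximal Frobenius tori and regular unipotent elements: the main theorem
-/

set_option autoImplicit false
set_option linter.unusedSectionVars false
set_option linter.unusedVariables false

namespace Pool.Agent.Y114.RM

open NumberField IsDedekindDomain Module Polynomial TensorProduct Pool.Agent.TH118.SG
  Pool.Agent.Y114.MU Pool.Agent.Y114.TF Pool.Agent.Y114.GF Pool.Agent.H204R3.GP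
open Pool.Agent.W569.FM Pool.Agent.W571.FM Pool.Agent.Y115.R Pool.Agent.Y115.T Pool.Agent.Y115.Chi

variable {F : Type} [Field F] [NumberField F] {ι : Type} [Fintype ι] [DecidableEq ι] {n : ι → ℕ}
  {w : ι → ℤ} {ℓ : ℕ} [hℓ : Fact ℓ.Prime]
  (ρ : ∀ i, Representation ℚ_[ℓ] Gal(AlgebraicClosure F/F) (Fin (n i) → ℚ_[ℓ]))

theorem main4 (h : Inputs) (h2 : Inputs2) (h3 : Inputs3)
    (hρ : ∀ i, Continuous fun g => LinearMap.toMatrix' (ρ i g))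
    (𝔤 : Submodule ℚ_[ℓ] (End ℚ_[ℓ] (∀ i, Fin (n i) → ℚ_[ℓ]))) (h𝔤 : IsMotivic ρ 𝔤)
    (P : HeightOneSpectrum (𝓞 F) → ι → ℚ[X])
    (T : Set ℕ) (hT3 : 3 ≤ T.encard) (hT : ∀ p ∈ T, p.Prime ∧ p ≠ ℓ ∧ UnramifiedIn F p)
    (hgood : ∀ p ∈ T, ∀ v, Above v p → GoodPlace ρ w v (P v))
    {p₀ : ℕ} (hp₀ : p₀ ∈ T) (hind₀ : IndependentPlaces P p₀) {v₀ : HeightOneSpectrum (𝓞 F)}
    (hv₀ : Above v₀ p₀) (r₀ : ℕ) (hr₀ : IndependentRoots r₀ (P v₀))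
    (hrk : RankAtMost 𝔤 r₀) (r : ι → ℕ)
    (hr : ∀ i, IndependentRoots (r i) (fun _ : Unit => P v₀ i))
    (hun : ∀ i, ∃ γ, (∀ l, IsNilpotent (ρ l γ - 1)) ∧
      finrank ℚ_[ℓ] (cen (𝔤.map (blk i)) (ρ i γ)) ≤ r i) :
    FiniteIndexSemisimple (sumRep ρ) ∧ ∀ (m : ℕ) (φ : Tensor ℚ_[ℓ] (∀ i, Fin (n i) → ℚ_[ℓ]) m),
      TateTensor (sumRep ρ) φ → ∀ X ∈ 𝔤, KillsTensor X φ := by
  classical
  obtain ⟨L, _, t, hss, hLT, hLie, hLG, hND, hrank, hlog, htL, hdiag, hcomm, hcen⟩ :=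
    semi_main ρ h h2 h3.rank hρ 𝔤 h𝔤 P T hT3 hT hgood hp₀ hind₀ hv₀ r₀ hr₀ hrk
  refine ⟨hss, ?_⟩
  have hL : ∀ X, X ∈ L ↔ X ∈ LT (sumRep ρ) := fun X =>
    ⟨fun hX => mem_LT_of_semisimple (sumRep ρ) hss ((hLT X).1 hX), fun hX => (hLT X).2 hX.2⟩
  have hfin : L = 𝔤 := by
    refine full_of_blocks h h3 hLie h𝔤.bracket hLG h𝔤.nondeg h𝔤.parts htL hdiag hcomm hcen
      fun i => ?_
    obtain ⟨γ, hγ, hγc⟩ := hun i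
    obtain ⟨Q₀, σ₀, hQ₀, hQ₀v, hσ₀⟩ : ∃ (Q : Ideal (OO F)) (σ : GF F), Q.IsMaximal ∧
      cm Q = v₀.asIdeal ∧ FrobAt (Ideal.absNorm v₀.asIdeal) Q σ := frob_cm v₀
    obtain ⟨z, hz, hind⟩ := hr i
    exact block_full ρ h h3 hL hLie h𝔤.bracket hLG h𝔤.parts hND hlog i σ₀⁻¹ z
      (fun a => part_eigen ρ σ₀⁻¹ ((hgood p₀ hp₀ v₀ hv₀).frobenius i Q₀ ⟨hQ₀.isPrime, hQ₀v⟩ σ₀ hσ₀)
        (hz a).choose_spec) hind hγ hγc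
  intro m φ hφ X hX
  exact (hLT X).1 (hfin ▸ hX) m φ hφ

end Pool.Agent.Y114.RM
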