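import Mathlib
import Pool.Agent.Y114.RM.Main3
import Pool.Agent.Y114.RM.Main4

/-!
# Definitions for the final statements
-/

set_option autoImplicit false

namespace Pool.Agent.Y114.RM

open NumberField IsDedekindDomain Polynomial Module Pool.Agent.Y114.TF Pool.Agent.Y114.GF
  Pool.Agent.Y114.MU Pool.Agent.H204R3.GP

/-- There are `r` multiplicatively independent complex numbers among the roots of the polynomials
in `S`. -/
def IndepRoots (r : ℕ) (S : Set ℚ[X]) : Prop :=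
  ∃ z : Fin r → ℂ, (∀ j, ∃ f ∈ S, aeval (z j) f = 0) ∧
    ∀ e : Fin r → ℤ, ∏ j, z j ^ e j = 1 → e = 0

section general

variable {k : Type} [Field k] {V : Type} [AddCommGroup V] [Module k V]

/-- The Tate tensors are the tensors killed by `𝔤`. -/
def TateIsKilledBy {Γ : Type} [Group Γ] (ρ : Representation k Γ V) (𝔤 : Submodule k (End k V)) :
    Prop :=
  ∀ (m : ℕ) (φ : Tensor k V m), TateTensor ρ φ ↔ ∀ X ∈ 𝔤, KillsTensor X φ

/-- `𝔤` consists of the endomorphisms which kill all Tate tensors. -/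
def IsKillerOfTate {Γ : Type} [Group Γ] (ρ : Representation k Γ V) (𝔤 : Submodule k (End k V)) :
    Prop :=
  ∀ X, X ∈ 𝔤 ↔ ∀ (m : ℕ) (φ : Tensor k V m), TateTensor ρ φ → KillsTensor X φ

/-- `𝔥` is contained in `𝔤`. -/
def Contained (𝔥 𝔤 : Submodule k (End k V)) : Prop := ∀ X ∈ 𝔥, X ∈ 𝔤

/-- The centralizers in `𝔤` of all elements of `𝔤` have at least the dimension `r`. -/
def RankAtLeast (𝔤 : Submodule k (End k V)) (r : ℕ) : Prop :=
  ∀ X ∈ 𝔤, r ≤ finrank k (cen 𝔤 X)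

end general

section blocks

variable {k : Type} [Field k] {ι : Type} [DecidableEq ι] {V : ι → Type}
  [∀ i, AddCommGroup (V i)] [∀ i, Module k (V i)]

/-- The image of `𝔤` in the endomorphisms of the `i`-th summand. -/
def imageIn (𝔤 : Submodule k (End k (∀ i, V i))) (i : ι) : Submodule k (End k (V i)) :=
  𝔤.map (blk i)

/-- The dimension of the centralizer of `g` in the image of `𝔤` in the endomorphisms of the `i`-th
summand. -/
noncomputable def dimCen (𝔤 : Submodule k (End k (∀ i, V i))) (i : ι) (g : End k (V i)) : ℕ :=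
  finrank k (cen (imageIn 𝔤 i) g)

end blocks

section defs

variable (Γ : Type) [Group Γ] {ι : Type} (n : ι → ℕ) (ℓ : ℕ) [Fact ℓ.Prime]

/-- Representations of `Γ` on the spaces `ℚ_ℓ ^ (n i)`. -/
def Reps : Type := ∀ i, Representation ℚ_[ℓ] Γ (Fin (n i) → ℚ_[ℓ])

/-- Spaces of endomorphisms of the direct sum of the spaces `ℚ_ℓ ^ (n i)`. -/
def EndSpace : Type := Submodule ℚ_[ℓ] (End ℚ_[ℓ] (∀ i, Fin (n i) → ℚ_[ℓ]))

end defs

section props

variable {Γ : Type} [Group Γ] {ι : Type} {n : ι → ℕ} {ℓ : ℕ} [Fact ℓ.Prime]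
  (ρ : Reps Γ n ℓ) (𝔤 : EndSpace n ℓ)

/-- The restriction of the representations to `Δ` by a homomorphism `Δ → Γ`. -/
noncomputable def restrictTo {Δ : Type} [Group Δ] (φ : Δ →* Γ) : Reps Δ n ℓ := fun i => (ρ i).comp φ

/-- The representations are continuous. -/
def Conts [TopologicalSpace Γ] : Prop := ∀ i, Continuous fun g => LinearMap.toMatrix' (ρ i g)

/-- The direct sum is semisimple as a representation of every subgroup of finite index. -/
def Semisimple : Prop := FiniteIndexSemisimple (sumRep ρ)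

/-- `𝔤` has the properties of the Lie algebra of the motivic Galois group (see `IsMotivic`). -/
def Motivic [DecidableEq ι] : Prop := IsMotivic ρ 𝔤

/-- The trace forms on the images of `𝔤` in the endomorphisms of the summands are nondegenerate. -/
def NonDegBlocks [DecidableEq ι] : Prop :=
  ∀ i, NonDeg (imageIn (k := ℚ_[ℓ]) (V := fun i => Fin (n i) → ℚ_[ℓ]) 𝔤 i)

/-- The rank of `𝔤` is at most `r` (see `RankAtMost`). -/
def RankLE (r : ℕ) : Prop := RankAtMost 𝔤 r

/-- The dimension of the centralizer of `g` in the image of `𝔤` in the endomorphisms of the `i`-th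
summand. -/
noncomputable def cenDim [DecidableEq ι] (i : ι) (g : Γ) : ℕ :=
  dimCen (k := ℚ_[ℓ]) (V := fun i => Fin (n i) → ℚ_[ℓ]) 𝔤 i (ρ i g)

/-- The Tate tensors are the tensors killed by `𝔤`. -/
def TateTensorsOf : Prop := TateIsKilledBy (sumRep ρ) 𝔤

/-- `𝔤` consists of the endomorphisms which kill all Tate tensors. -/
def KillsTateTensors : Prop := IsKillerOfTate (sumRep ρ) 𝔤

/-- `𝔥` is a Lie subalgebra of `𝔤` with nondegenerate trace form, in which the centralizers of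
all elements have at least the dimension `r`. -/
structure ReductiveOfRank (𝔥 : EndSpace n ℓ) (r : ℕ) : Prop where
  bracket : IsLie 𝔥
  nondeg : NonDeg 𝔥
  rank : RankAtLeast 𝔥 r
  le : Contained 𝔥 𝔤

/-- `g` acts unipotently on the `i`-th summand. -/
def Unip (i : ι) (g : Γ) : Prop := IsNilpotent (ρ i g - 1)

/-- `g` and `h` act in the same way on the `i`-th summand. -/
def Same (i : ι) (g h : Γ) : Prop := ρ i g = ρ i h

/-- The characteristic polynomial of `g` on the `i`-th summand is `P`. -/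
def HasPoly (i : ι) (g : Γ) (P : ℚ[X]) : Prop := (ρ i g).charpoly = P.map (algebraMap ℚ ℚ_[ℓ])

end props

section places

variable {F : Type} [Field F] [NumberField F] {ι : Type} {n : ι → ℕ} {ℓ : ℕ} [Fact ℓ.Prime]
  (ρ : Reps Gal(AlgebraicClosure F/F) n ℓ) (𝔤 : EndSpace n ℓ)

/-- Good reduction of the `i`-th summand at `v`: it is unramified at `v`, and the geometric Frobenius
elements at `v` have the characteristic polynomial `P`, with rational coefficients and pure of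
weight `w`. -/
def GoodReduction (i : ι) (w : ℤ) (v : HeightOneSpectrum (𝓞 F)) (P : ℚ[X]) : Prop :=
  (∀ a ∈ P.aroots ℂ, ‖a‖ ^ 2 = (q v : ℝ) ^ w) ∧ ∀ Q, PrimeOver Q v → ∀ g,
    (InInertiaAt Q g → Same ρ i g 1) ∧ (IsFrobAt Q (q v) g → HasPoly ρ i g⁻¹ P)

/-- Regular monodromy of the `i`-th summand at `v`: at all `Q` above `v` the inertia group acts
unipotently on the `i`-th summand and contains an element `τ` whose centralizer in the image of `𝔤` in
the endomorphisms of the `i`-th summand has at most the dimension `r`, such that `φ τ φ⁻¹` acts as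
`τ ^ q` on the `i`-th summand for all (arithmetic) Frobenius elements `φ` at `Q`, where `q` is the
order of the residue field; powers of `τ` act unipotently on the other summands. -/
def RegularAt [DecidableEq ι] (i : ι) (r : ℕ) (v : HeightOneSpectrum (𝓞 F)) : Prop :=
  ∀ Q, PrimeOver Q v → (∀ g, InInertiaAt Q g → Unip ρ i g) ∧
    ∃ τ, InInertiaAt Q τ ∧ cenDim ρ 𝔤 i τ ≤ r ∧
      (∀ φ, IsFrobAt Q (q v) φ → Same ρ i (φ * τ * φ⁻¹) (τ ^ q v)) ∧
      ∀ j, ∃ e : ℕ, 0 < e ∧ Unip ρ j (τ ^ e)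

end places

section lemmas

variable {F : Type} [Field F] [NumberField F] {ι : Type} {n : ι → ℕ} {ℓ : ℕ} [Fact ℓ.Prime]
  (ρ : Reps Gal(AlgebraicClosure F/F) n ℓ)

theorem goodPlace_of {w : ι → ℤ} {v : HeightOneSpectrum (𝓞 F)} {P : ι → ℚ[X]}
    (h : ∀ i, GoodReduction ρ i (w i) v (P i)) : GoodPlace ρ w v P where
  unramified i Q hQ g hg := by
    have h1 : ρ i g = ρ i 1 := ((h i).2 Q hQ g).1 hg
    rw [h1, map_one]
  frobenius i Q hQ g hg := ((h i).2 Q hQ g).2 hg
  pure i := (h i).1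

theorem goodPart_of {i : ι} {w : ℤ} {v : HeightOneSpectrum (𝓞 F)} {P : ℚ[X]}
    (h : GoodReduction ρ i w v P) : GoodPart ρ w i v := by
  refine ⟨P, h.1, fun Q hQ g => ⟨fun hg => ?_, (h.2 Q hQ g).2⟩⟩
  have h1 : ρ i g = ρ i 1 := (h.2 Q hQ g).1 hg
  rw [h1, map_one]

theorem independentRoots_range {r : ℕ} {P : ι → ℚ[X]} (h : IndepRoots r (Set.range P)) :
    IndependentRoots r P := by
  obtain ⟨z, hz, hind⟩ := h
  refine ⟨z, fun j => ?_, hind⟩
  obtain ⟨f, ⟨i, rfl⟩, hi⟩ := hz j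
  exact ⟨i, hi⟩

theorem independentRoots_one {r : ℕ} {P : ℚ[X]} (h : IndepRoots r {P}) :
    IndependentRoots r (fun _ : Unit => P) := by
  obtain ⟨z, hz, hind⟩ := h
  refine ⟨z, fun j => ?_, hind⟩
  obtain ⟨f, hf, hi⟩ := hz j
  rw [Set.mem_singleton_iff.1 hf] at hi
  exact ⟨(), hi⟩

end lemmas

section spec

variable {Γ : Type} [Group Γ] {Δ : Type} [Group Δ] {ι : Type} [Fintype ι] [DecidableEq ι]
  {n : ι → ℕ} {ℓ : ℕ} [Fact ℓ.Prime]

omit [Fintype ι] [DecidableEq ι] in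
theorem sumRep_restrict (ρ : Reps Γ n ℓ) (φ : Δ →* Γ) (g : Δ) :
    sumRep (restrictTo ρ φ) g = sumRep ρ (φ g) := rfl

omit [Fintype ι] [DecidableEq ι] in
theorem finiteIndex_comap (φ : Δ →* Γ) {H : Subgroup Γ} (hH : H.FiniteIndex) :
    (H.comap φ).FiniteIndex := by
  constructor
  rw [Subgroup.index_comap]
  exact (inferInstance : (H.subgroupOf φ.range).FiniteIndex).index_ne_zero

omit [Fintype ι] [DecidableEq ι] in
theorem tateTensor_restrict (ρ : Reps Γ n ℓ) (φ : Δ →* Γ) {m : ℕ}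
    {T : Tensor ℚ_[ℓ] (∀ i, Fin (n i) → ℚ_[ℓ]) m} (h : TateTensor (sumRep ρ) T) :
    TateTensor (sumRep (restrictTo ρ φ)) T := by
  obtain ⟨H, hH, h1⟩ := h
  refine ⟨H.comap φ, finiteIndex_comap φ hH, fun γ hγ v => ?_⟩
  rw [sumRep_restrict, sumRep_restrict, map_inv]
  exact h1 (φ γ) hγ v

omit [Fintype ι] in
theorem motivic_restrict {ρ : Reps Γ n ℓ} {𝔤 : EndSpace n ℓ} (h : Motivic ρ 𝔤) (φ : Δ →* Γ) :
    IsMotivic (restrictTo ρ φ) 𝔤 where
  bracket := IsMotivic.bracket h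
  parts := IsMotivic.parts h
  nondeg := IsMotivic.nondeg h
  semisimple := IsMotivic.semisimple h
  algebraic := IsMotivic.algebraic h
  tate m T hT := tateTensor_restrict ρ φ (IsMotivic.tate h m T hT)

/-- The conclusion for a specialization implies the conclusion. -/
theorem of_restrict (hin : Inputs) {ρ : Reps Γ n ℓ} {𝔤 : EndSpace n ℓ} (h : Motivic ρ 𝔤)
    (φ : Δ →* Γ) (h1 : FiniteIndexSemisimple (sumRep (restrictTo ρ φ)))
    (h2 : ∀ (m : ℕ) (T : Tensor ℚ_[ℓ] (∀ i, Fin (n i) → ℚ_[ℓ]) m),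
      TateTensor (sumRep (restrictTo ρ φ)) T →
        ∀ X ∈ (show Submodule ℚ_[ℓ] (End ℚ_[ℓ] (∀ i, Fin (n i) → ℚ_[ℓ])) from 𝔤),
          KillsTensor X T) :
    Semisimple ρ ∧ TateTensorsOf ρ 𝔤 := by
  have h3 : ∀ (m : ℕ) (T : Tensor ℚ_[ℓ] (∀ i, Fin (n i) → ℚ_[ℓ]) m), TateTensor (sumRep ρ) T →
      ∀ X ∈ (show Submodule ℚ_[ℓ] (End ℚ_[ℓ] (∀ i, Fin (n i) → ℚ_[ℓ])) from 𝔤),
        KillsTensor X T := fun m T hT => h2 m T (tateTensor_restrict ρ φ hT)
  refine ⟨hin.concl _ ι _ _ ρ 𝔤 h fun X hX => ⟨?_, fun m T hT => h3 m T hT X hX⟩, fun m T =>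
    ⟨h3 m T, IsMotivic.tate h m T⟩⟩
  rintro W ⟨H, hH, hW⟩
  exact (mem_LT_of_semisimple (sumRep (restrictTo ρ φ)) h1
    fun m T hT => h2 m T hT X hX).1 W ⟨H.comap φ, finiteIndex_comap φ hH, fun γ hγ => hW (φ γ) hγ⟩

end spec

end Pool.Agent.Y114.RM
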