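import Mathlib
import Pool.Agent.Y114.RM.All
import Pool.Agent.Y114.RM.Final
import Pool.Agent.Y220.RM.RATIO
import Pool.Agent.Y220.RM.TFR
import Pool.Agent.Y41.RM.Uni
import Pool.Agent.Y925.RM.Weyl
import Pool.Agent.Y212.RM.Sym

/-!
# The inputs of the second part
-/

set_option autoImplicit false

namespace Pool.Agent.Y114.RM

open Pool.Agent

theorem inputs2_of (hjord : S_JORD) (hcartan : S_CARTAN) : Inputs2 where
  ratio := Y220.RM.ratio
  uni := Y41.RM.uni
  tfr := Y220.RM.tfr
  sym := Y212.RM.sym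
  weyl := Y925.RM.Weyl.weyl
  jord := hjord
  cartan := hcartan

theorem inputs3 : Inputs3 where
  rank := Y809.RM.rank
  jm2 := Y37.RM.jm2
  gen := Y434.RM.Gen.gen
  gour := Y212.RM.gour

end Pool.Agent.Y114.RM
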