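import Mathlib
import Pool.Agent.Y114.RM.All2
import Pool.Agent.Y785.RM.Cartan
import Pool.Agent.Y914.RM.Jord

/-!
# The inputs of the second part: all proved
-/

set_option autoImplicit false

namespace Pool.Agent.Y114.RM

open Pool.Agent

theorem inputs2 : Inputs2 := inputs2_of Y914.RM.jord Y785.RM.cartan

end Pool.Agent.Y114.RM
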